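import Mathlib

/-!
# Solvable Iwasawa groups of classical symmetric spaces of types `A_n` and `C_n`

Upper triangular matrix groups over `ℝ`, `ℂ`, `ℍ`.
-/

namespace Pool.Agent.ANM51

open Matrix

set_option linter.unusedSectionVars false

/-- `g` is upper triangular for the ordering of the index set given by `lv`. -/
def IsTri {I D : Type} [Zero D] (lv : I → ℕ) (g : Matrix I I D) : Prop :=
  ∀ p q, lv q < lv p → g p q = 0

section tri

variable {I D : Type} [Fintype I] [DecidableEq I] [Ring D]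

theorem IsTri.mul {lv : I → ℕ} {g h : Matrix I I D} (hg : IsTri lv g) (hh : IsTri lv h) :
    IsTri lv (g * h) := by
  intro p q hpq
  rw [Matrix.mul_apply]
  refine Finset.sum_eq_zero fun r _ => ?_
  by_cases h1 : lv r < lv p
  · rw [hg p r h1, zero_mul]
  · rw [hh r q (by omega), mul_zero]

theorem isTri_one (lv : I → ℕ) : IsTri lv (1 : Matrix I I D) := by
  intro p q hpq
  rw [Matrix.one_apply_ne]
  rintro rfl
  omega

/-- The group of invertible matrices which are upper triangular together with their inverse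
(for matrices over a division ring the inverse is upper triangular automatically). -/
def TriGrp (I D : Type) [Fintype I] [DecidableEq I] [Ring D] (lv : I → ℕ) :
    Subgroup (Matrix I I D)ˣ where
  carrier := {g | IsTri lv (g : Matrix I I D) ∧ IsTri lv ((g⁻¹ : (Matrix I I D)ˣ) : Matrix I I D)}
  mul_mem' := by
    rintro a b ⟨ha, ha'⟩ ⟨hb, hb'⟩
    refine ⟨?_, ?_⟩
    · rw [Units.val_mul]; exact ha.mul hb
    · rw [_root_.mul_inv_rev, Units.val_mul]; exact hb'.mul ha'
  one_mem' := by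
    refine ⟨?_, ?_⟩
    · rw [Units.val_one]; exact isTri_one lv
    · rw [inv_one, Units.val_one]; exact isTri_one lv
  inv_mem' := by
    rintro a ⟨ha, ha'⟩
    exact ⟨ha', by rw [inv_inv]; exact ha⟩

/-- For an injective `lv`, diagonal entries multiply on upper triangular matrices. -/
theorem IsTri.mul_diag {lv : I → ℕ} (hlv : Function.Injective lv) {g h : Matrix I I D}
    (hg : IsTri lv g) (hh : IsTri lv h) (p : I) : (g * h) p p = g p p * h p p := by
  rw [Matrix.mul_apply, Finset.sum_eq_single p]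
  · intro r _ hr
    rcases lt_trichotomy (lv r) (lv p) with h1 | h1 | h1
    · rw [hg p r h1, zero_mul]
    · exact absurd (hlv h1) hr
    · rw [hh r p h1, mul_zero]
  · intro hp; exact absurd (Finset.mem_univ p) hp

end tri

section pos

variable {I D : Type} [Fintype I] [DecidableEq I] [NormedDivisionRing D] [NormedAlgebra ℝ D]

/-- The diagonal entries of `g` are the positive real numbers `c p`. -/
def DiagIs (g : Matrix I I D) (c : I → ℝ) : Prop :=
  ∀ p, 0 < c p ∧ g p p = algebraMap ℝ D (c p)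

end pos

/-- The group `A₁N₁` for `X₁ = SL_{n+1}(D)/K`, `D = ℝ, ℂ, ℍ`: upper triangular
`(n+1) × (n+1)` matrices with positive real diagonal entries of product `1`. -/
def ANSL (n : ℕ) (D : Type) [NormedDivisionRing D] [NormedAlgebra ℝ D] :
    Subgroup (Matrix (Fin (n + 1)) (Fin (n + 1)) D)ˣ where
  carrier := {g | g ∈ TriGrp (Fin (n + 1)) D (fun i => (i : ℕ)) ∧
    ∃ c : Fin (n + 1) → ℝ, DiagIs (g : Matrix (Fin (n + 1)) (Fin (n + 1)) D) c ∧ ∏ i, c i = 1}
  mul_mem' := by
    rintro a b ⟨ha, c, hc, hc1⟩ ⟨hb, d, hd, hd1⟩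
    refine ⟨mul_mem ha hb, fun i => c i * d i, fun i => ⟨mul_pos (hc i).1 (hd i).1, ?_⟩, ?_⟩
    · rw [Units.val_mul, IsTri.mul_diag Fin.val_injective ha.1 hb.1, (hc i).2, (hd i).2, map_mul]
    · rw [Finset.prod_mul_distrib, hc1, hd1, one_mul]
  one_mem' := by
    refine ⟨one_mem _, fun _ => 1, fun i => ⟨one_pos, ?_⟩, ?_⟩
    · rw [Units.val_one, Matrix.one_apply_eq, map_one]
    · simp
  inv_mem' := by
    rintro a ⟨ha, c, hc, hc1⟩
    refine ⟨inv_mem ha, fun i => (c i)⁻¹, fun i => ⟨inv_pos.2 (hc i).1, ?_⟩, ?_⟩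
    · have h1 := IsTri.mul_diag Fin.val_injective ha.1 ha.2 i
      rw [← Units.val_mul, mul_inv_cancel, Units.val_one, Matrix.one_apply_eq, (hc i).2] at h1
      have h2 : algebraMap ℝ D (c i)⁻¹ * algebraMap ℝ D (c i) = 1 := by
        rw [← map_mul, inv_mul_cancel₀ (hc i).1.ne', map_one]
      calc (a⁻¹).val i i
          = (algebraMap ℝ D (c i)⁻¹ * algebraMap ℝ D (c i)) * (a⁻¹).val i i := by
            rw [h2, one_mul]
        _ = algebraMap ℝ D (c i)⁻¹ := by rw [mul_assoc, ← h1, mul_one]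
    · rw [Finset.prod_inv_distrib, hc1, inv_one]

/-- A form type on `D = ℝ, ℂ, ℍ`: an involution `σ` of `D` (an additive, real-linear, isometric
anti-automorphism of order at most two) and a sign `ε`. -/
structure FormData (D : Type) [NormedDivisionRing D] [NormedAlgebra ℝ D] where
  /-- the involution -/
  σ : D →ₗ[ℝ] D
  anti : ∀ x y, σ (x * y) = σ y * σ x
  invol : ∀ x, σ (σ x) = x
  norm_σ : ∀ x, ‖σ x‖ = ‖x‖
  /-- the sign -/
  ε : ℝ
  hε : ε = 1 ∨ ε = -1

/-- The order `1 < 2 < ... < n < n' < ... < 2' < 1'` on the index set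
`Fin n ⊕ Fin n = {1, ..., n} ∪ {1', ..., n'}`. -/
def lev (n : ℕ) : Fin n ⊕ Fin n → ℕ
  | .inl i => i
  | .inr i => 2 * n - 1 - i

theorem lev_injective (n : ℕ) : Function.Injective (lev n) := by
  rintro (i | i) (j | j) h
  · simp only [lev] at h; rw [Fin.ext h]
  · have := i.2; have := j.2; simp only [lev] at h; omega
  · have := i.2; have := j.2; simp only [lev] at h; omega
  · have := i.2; have := j.2; simp only [lev] at h
    rw [Fin.ext (by omega : (i : ℕ) = j)]

/-- The matrix `[[0, 1], [-ε, 0]]` of the form. -/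
noncomputable def Jmat {D : Type} [NormedDivisionRing D] [NormedAlgebra ℝ D] (F : FormData D) (n : ℕ) :
    Matrix (Fin n ⊕ Fin n) (Fin n ⊕ Fin n) D :=
  Matrix.fromBlocks 0 1 (-(F.ε • (1 : Matrix (Fin n) (Fin n) D))) 0

/-- The `σ`-conjugate transpose. -/
noncomputable def ctr {D : Type} [NormedDivisionRing D] [NormedAlgebra ℝ D] (F : FormData D) {m k : Type}
    (g : Matrix m k D) : Matrix k m D := fun i j => F.σ (g j i)

section ctr

variable {D : Type} [NormedDivisionRing D] [NormedAlgebra ℝ D] (F : FormData D)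

theorem FormData.σ_one : F.σ 1 = 1 := by
  have h := F.anti 1 (F.σ 1)
  rw [one_mul, F.invol] at h
  have h2 : F.σ 1 ≠ 0 := by
    intro h0
    have := F.norm_σ 1
    rw [h0, norm_zero, norm_one] at this
    exact zero_ne_one this
  -- `h : 1 = 1 * σ 1`
  rw [one_mul] at h
  exact h.symm

theorem FormData.σ_real (c : ℝ) : F.σ (algebraMap ℝ D c) = algebraMap ℝ D c := by
  rw [Algebra.algebraMap_eq_smul_one, map_smul, F.σ_one]

variable {m k l : Type}

theorem ctr_mul [Fintype k] (a : Matrix m k D) (b : Matrix k l D) :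
    ctr F (a * b) = ctr F b * ctr F a := by
  ext i j
  simp only [ctr, Matrix.mul_apply, map_sum, F.anti]

theorem ctr_ctr (a : Matrix m k D) : ctr F (ctr F a) = a := by
  ext i j; simp only [ctr, F.invol]

theorem ctr_one [DecidableEq m] : ctr F (1 : Matrix m m D) = 1 := by
  ext i j
  by_cases h : i = j
  · subst h; simp [ctr, F.σ_one]
  · simp [ctr, Matrix.one_apply_ne h, Matrix.one_apply_ne (Ne.symm h)]

end ctr

/-- The minimal parabolic subgroup `M₂A₂N₂` of the isometry group `G₂` of the form: all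
upper triangular matrices (with upper triangular inverse) over `D`, in the order
`1 < ... < n < n' < ... < 1'`, which preserve the form. -/
noncomputable def ParC (n : ℕ) {D : Type} [NormedDivisionRing D] [NormedAlgebra ℝ D] (F : FormData D) :
    Subgroup (Matrix (Fin n ⊕ Fin n) (Fin n ⊕ Fin n) D)ˣ where
  carrier := {g | g ∈ TriGrp (Fin n ⊕ Fin n) D (lev n) ∧
    ctr F (g : Matrix (Fin n ⊕ Fin n) (Fin n ⊕ Fin n) D) * Jmat F n * g = Jmat F n}
  mul_mem' := by
    rintro a b ⟨ha, ha'⟩ ⟨hb, hb'⟩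
    refine ⟨mul_mem ha hb, ?_⟩
    rw [Units.val_mul, ctr_mul]
    calc ctr F (b : Matrix _ _ D) * ctr F (a : Matrix _ _ D) * Jmat F n * (a.val * b.val)
        = ctr F (b : Matrix _ _ D) * (ctr F (a : Matrix _ _ D) * Jmat F n * a.val) * b.val := by
          simp only [mul_assoc]
      _ = Jmat F n := by rw [ha', hb']
  one_mem' := by
    refine ⟨one_mem _, ?_⟩
    rw [Units.val_one, ctr_one, one_mul, mul_one]
  inv_mem' := by
    rintro a ⟨ha, ha'⟩
    refine ⟨inv_mem ha, ?_⟩
    have h1 : a.val * (a⁻¹).val = 1 := Units.mul_inv a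
    have h2 : ctr F (a⁻¹).val * ctr F a.val = 1 := by
      rw [← ctr_mul, h1, ctr_one]
    calc ctr F (a⁻¹).val * Jmat F n * (a⁻¹).val
        = ctr F (a⁻¹).val * (ctr F a.val * Jmat F n * a.val) * (a⁻¹).val := by rw [ha']
      _ = (ctr F (a⁻¹).val * ctr F a.val) * Jmat F n * (a.val * (a⁻¹).val) := by
          simp only [mul_assoc]
      _ = Jmat F n := by rw [h1, h2, one_mul, mul_one]

/-- The group `A₂N₂` of `G₂`: the elements of the minimal parabolic subgroup all of whose
diagonal entries are positive real numbers. -/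
noncomputable def ANC (n : ℕ) {D : Type} [NormedDivisionRing D] [NormedAlgebra ℝ D] (F : FormData D) :
    Subgroup (Matrix (Fin n ⊕ Fin n) (Fin n ⊕ Fin n) D)ˣ where
  carrier := {g | g ∈ ParC n F ∧
    ∃ c : Fin n ⊕ Fin n → ℝ, DiagIs (g : Matrix (Fin n ⊕ Fin n) (Fin n ⊕ Fin n) D) c}
  mul_mem' := by
    rintro a b ⟨ha, c, hc⟩ ⟨hb, d, hd⟩
    refine ⟨mul_mem ha hb, fun i => c i * d i, fun i => ⟨mul_pos (hc i).1 (hd i).1, ?_⟩⟩
    rw [Units.val_mul, IsTri.mul_diag (lev_injective n) ha.1.1 hb.1.1, (hc i).2, (hd i).2, map_mul]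
  one_mem' := by
    refine ⟨one_mem _, fun _ => 1, fun i => ⟨one_pos, ?_⟩⟩
    rw [Units.val_one, Matrix.one_apply_eq, map_one]
  inv_mem' := by
    rintro a ⟨ha, c, hc⟩
    refine ⟨inv_mem ha, fun i => (c i)⁻¹, fun i => ⟨inv_pos.2 (hc i).1, ?_⟩⟩
    have h1 := IsTri.mul_diag (lev_injective n) ha.1.1 ha.1.2 i
    rw [← Units.val_mul, mul_inv_cancel, Units.val_one, Matrix.one_apply_eq, (hc i).2] at h1
    have h2 : algebraMap ℝ D (c i)⁻¹ * algebraMap ℝ D (c i) = 1 := by
      rw [← map_mul, inv_mul_cancel₀ (hc i).1.ne', map_one]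
    calc (a⁻¹).val i i
        = (algebraMap ℝ D (c i)⁻¹ * algebraMap ℝ D (c i)) * (a⁻¹).val i i := by
          rw [h2, one_mul]
      _ = algebraMap ℝ D (c i)⁻¹ := by rw [mul_assoc, ← h1, mul_one]

theorem ANC_le_ParC (n : ℕ) {D : Type} [NormedDivisionRing D] [NormedAlgebra ℝ D]
    (F : FormData D) : ANC n F ≤ ParC n F := fun _ h => h.1

end Pool.Agent.ANM51
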