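import Pool.Agent.ANM51.Lead

/-!
# Torus and root elements of `A₁N₁`
-/

namespace Pool.Agent.ANM51

open Matrix

set_option linter.unusedSectionVars false

variable {n : ℕ} {D : Type} [NormedDivisionRing D] [NormedAlgebra ℝ D]

/-- the diagonal entries of the torus element with parameter `s` -/
noncomputable def tval (s : Fin (n + 1) → ℝ) (i : Fin (n + 1)) : ℝ :=
  Real.exp (s i - (∑ j, s j) / (n + 1))

theorem tval_pos (s : Fin (n + 1) → ℝ) (i : Fin (n + 1)) : 0 < tval s i := Real.exp_pos _

theorem tval_add (s t : Fin (n + 1) → ℝ) (i : Fin (n + 1)) :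
    tval (s + t) i = tval s i * tval t i := by
  rw [tval, tval, tval, ← Real.exp_add]
  congr 1
  simp only [Pi.add_apply, Finset.sum_add_distrib]
  ring

theorem tval_zero (i : Fin (n + 1)) : tval (0 : Fin (n + 1) → ℝ) i = 1 := by
  simp [tval]

theorem tval_prod (s : Fin (n + 1) → ℝ) : ∏ i, tval s i = 1 := by
  simp only [tval]
  rw [← Real.exp_sum, Finset.sum_sub_distrib, Finset.sum_const, Finset.card_univ,
    Fintype.card_fin, nsmul_eq_mul]
  have : ((n + 1 : ℕ) : ℝ) ≠ 0 := by positivity
  push_cast at this ⊢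
  rw [mul_div_cancel₀ _ this, sub_self, Real.exp_zero]

theorem tval_div (s : Fin (n + 1) → ℝ) (i j : Fin (n + 1)) :
    tval s i = Real.exp (s i - s j) * tval s j := by
  rw [tval, tval, ← Real.exp_add]
  congr 1
  ring

variable (D) in
/-- torus matrices -/
noncomputable def torM (s : Fin (n + 1) → ℝ) : Matrix (Fin (n + 1)) (Fin (n + 1)) D :=
  Matrix.diagonal fun i => algebraMap ℝ D (tval s i)

theorem torM_add (s t : Fin (n + 1) → ℝ) : torM D (s + t) = torM D s * torM D t := by
  rw [torM, torM, torM, Matrix.diagonal_mul_diagonal]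
  congr 1
  funext i
  rw [tval_add, map_mul]

theorem torM_zero : torM D (0 : Fin (n + 1) → ℝ) = 1 := by
  rw [torM, ← Matrix.diagonal_one]
  congr 1
  funext i
  rw [tval_zero, map_one]

theorem isTri_torM (s : Fin (n + 1) → ℝ) : IsTri (fun i : Fin (n + 1) => (i : ℕ)) (torM D s) := by
  intro p q hpq
  rw [torM, Matrix.diagonal_apply_ne]
  rintro rfl
  exact lt_irrefl _ hpq

theorem torM_diag (s : Fin (n + 1) → ℝ) (i : Fin (n + 1)) :
    torM D s i i = algebraMap ℝ D (tval s i) := by
  rw [torM, Matrix.diagonal_apply_eq]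

variable (D) in
/-- torus elements as units -/
noncomputable def torU (s : Fin (n + 1) → ℝ) : (Matrix (Fin (n + 1)) (Fin (n + 1)) D)ˣ where
  val := torM D s
  inv := torM D (-s)
  val_inv := by rw [← torM_add, add_neg_cancel, torM_zero]
  inv_val := by rw [← torM_add, neg_add_cancel, torM_zero]

variable (D) in
/-- torus elements of `A₁N₁` -/
noncomputable def tor (s : Fin (n + 1) → ℝ) : ANSL n D :=
  ⟨torU D s, ⟨⟨isTri_torM s, isTri_torM (-s)⟩, tval s,
    fun i => ⟨tval_pos s i, torM_diag s i⟩, tval_prod s⟩⟩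

theorem tor_add (s t : Fin (n + 1) → ℝ) : tor D (s + t) = tor D s * tor D t := by
  apply Subtype.ext
  apply Units.ext
  exact torM_add s t

theorem continuous_tval (i : Fin (n + 1)) : Continuous fun s : Fin (n + 1) → ℝ => tval s i := by
  unfold tval
  fun_prop

theorem continuous_torM : Continuous (torM D : (Fin (n + 1) → ℝ) → _) := by
  unfold torM
  refine Continuous.matrix_diagonal (continuous_pi fun i => ?_)
  exact (continuous_algebraMap ℝ D).comp (continuous_tval i)

theorem continuous_tor : Continuous (tor D : (Fin (n + 1) → ℝ) → ANSL n D) := by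
  refine Continuous.subtype_mk ?_ _
  rw [Units.continuous_iff]
  exact ⟨continuous_torM, continuous_torM.comp continuous_neg⟩

/-- root matrices -/
noncomputable def rtM (i j : Fin (n + 1)) (x : D) : Matrix (Fin (n + 1)) (Fin (n + 1)) D :=
  1 + Matrix.single i j x

theorem rtM_add {i j : Fin (n + 1)} (hij : i < j) (x y : D) :
    rtM i j (x + y) = rtM i j x * rtM i j y := by
  simp only [rtM]
  rw [add_mul, mul_add, mul_add, Matrix.single_mul_single_of_ne _ _ _ _ (ne_of_gt hij),
    Matrix.single_add, one_mul, one_mul, mul_one, add_zero]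
  abel

theorem rtM_zero (i j : Fin (n + 1)) : rtM i j (0 : D) = 1 := by
  rw [rtM, Matrix.single_zero, add_zero]

theorem rtM_diag {i j : Fin (n + 1)} (hij : i < j) (x : D) (p : Fin (n + 1)) :
    rtM i j x p p = 1 := by
  rw [rtM, Matrix.add_apply, Matrix.one_apply_eq, Matrix.single_apply_of_ne, add_zero]
  rintro ⟨rfl, h⟩
  exact absurd h.symm (ne_of_lt hij)

theorem rtM_entry {i j : Fin (n + 1)} (hij : i < j) (x : D) : rtM i j x i j = x := by
  rw [rtM, Matrix.add_apply, Matrix.one_apply_ne (ne_of_lt hij), Matrix.single_apply_same, zero_add]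

theorem isTri_rtM {i j : Fin (n + 1)} (hij : i < j) (x : D) :
    IsTri (fun i : Fin (n + 1) => (i : ℕ)) (rtM i j x) := by
  intro p q hpq
  have hpq' : q < p := hpq
  rw [rtM, Matrix.add_apply, Matrix.one_apply_ne (ne_of_gt hpq'), Matrix.single_apply_of_ne,
    add_zero]
  rintro ⟨rfl, rfl⟩
  exact absurd hij (not_lt.2 hpq'.le)

/-- root elements as units -/
noncomputable def rtU {i j : Fin (n + 1)} (hij : i < j) (x : D) :
    (Matrix (Fin (n + 1)) (Fin (n + 1)) D)ˣ where
  val := rtM i j x
  inv := rtM i j (-x)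
  val_inv := by rw [← rtM_add hij, add_neg_cancel, rtM_zero]
  inv_val := by rw [← rtM_add hij, neg_add_cancel, rtM_zero]

/-- root elements of `A₁N₁` -/
noncomputable def rt {i j : Fin (n + 1)} (hij : i < j) (x : D) : ANSL n D :=
  ⟨rtU hij x, ⟨⟨isTri_rtM hij x, isTri_rtM hij (-x)⟩, fun _ => 1,
    fun p => ⟨one_pos, by rw [map_one]; exact rtM_diag hij x p⟩, by simp⟩⟩

theorem rt_add {i j : Fin (n + 1)} (hij : i < j) (x y : D) :
    rt hij (x + y) = rt hij x * rt hij y := by
  apply Subtype.ext
  apply Units.ext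
  exact rtM_add hij x y

theorem rt_zero {i j : Fin (n + 1)} (hij : i < j) : rt hij (0 : D) = 1 := by
  apply Subtype.ext
  apply Units.ext
  exact rtM_zero i j

theorem rt_injective {i j : Fin (n + 1)} (hij : i < j) :
    Function.Injective (rt hij : D → ANSL n D) := by
  intro x y h
  have h1 : rtM i j x = rtM i j y := congrArg (fun g : ANSL n D => g.1.val) h
  rw [← rtM_entry hij x, h1, rtM_entry hij]

theorem continuous_rtM (i j : Fin (n + 1)) : Continuous (rtM i j : D → _) := by
  unfold rtM
  refine continuous_const.add ?_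
  refine continuous_matrix fun a b => ?_
  by_cases h : i = a ∧ j = b
  · obtain ⟨rfl, rfl⟩ := h
    simp only [Matrix.single_apply_same]
    exact continuous_id
  · simp only [Matrix.single_apply_of_ne _ _ _ _ _ h]
    exact continuous_const

theorem continuous_rt {i j : Fin (n + 1)} (hij : i < j) :
    Continuous (rt hij : D → ANSL n D) := by
  refine Continuous.subtype_mk ?_ _
  rw [Units.continuous_iff]
  exact ⟨continuous_rtM i j, (continuous_rtM i j).comp continuous_neg⟩

theorem tor_rt {i j : Fin (n + 1)} (hij : i < j) (s : Fin (n + 1) → ℝ) (x : D) :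
    tor D s * rt hij x = rt hij (Real.exp (s i - s j) • x) * tor D s := by
  apply Subtype.ext
  apply Units.ext
  change torM D s * rtM i j x = rtM i j (Real.exp (s i - s j) • x) * torM D s
  rw [rtM, rtM, mul_add, add_mul, mul_one, one_mul]
  congr 1
  ext a b
  rw [torM, Matrix.diagonal_mul, Matrix.mul_diagonal]
  by_cases h : i = a ∧ j = b
  · obtain ⟨rfl, rfl⟩ := h
    rw [Matrix.single_apply_same, Matrix.single_apply_same, tval_div s i j,
      Algebra.algebraMap_eq_smul_one, Algebra.algebraMap_eq_smul_one, smul_mul_assoc,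
      smul_mul_assoc, mul_smul_comm, one_mul, mul_one, smul_smul, mul_comm]
  · rw [Matrix.single_apply_of_ne _ _ _ _ _ h, Matrix.single_apply_of_ne _ _ _ _ _ h, mul_zero,
      zero_mul]

theorem rt_comm {i j k l : Fin (n + 1)} (hij : i < j) (hkl : k < l) (hjk : j ≠ k) (hli : l ≠ i)
    (x y : D) : rt hij x * rt hkl y = rt hkl y * rt hij x := by
  apply Subtype.ext
  apply Units.ext
  change rtM i j x * rtM k l y = rtM k l y * rtM i j x
  simp only [rtM]
  rw [add_mul, mul_add, mul_add, Matrix.single_mul_single_of_ne _ _ _ _ hjk, add_mul, mul_add,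
    mul_add, Matrix.single_mul_single_of_ne _ _ _ _ hli]
  simp only [one_mul, mul_one, add_zero]
  abel

end Pool.Agent.ANM51
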