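import Pool.Agent.ANM51.Mk

/-!
# The first family of AN-maps: `e_i - e_j` and `e_1 + e_i`
-/

namespace Pool.Agent.ANM51

open Matrix

set_option linter.unusedSectionVars false

variable {n : ℕ} {D₁ D₂ : Type} [NormedDivisionRing D₁] [NormedAlgebra ℝ D₁]
  [NormedDivisionRing D₂] [NormedAlgebra ℝ D₂] (F : FormData D₂)

theorem sl_tri (g : ANSL n D₁) {i j : Fin (n + 1)} (h : j < i) : g.1.val i j = 0 :=
  g.2.1.1 i j h

theorem sl_diag (g : ANSL n D₁) (i : Fin (n + 1)) :
    0 < ‖g.1.val i i‖ ∧ g.1.val i i = algebraMap ℝ D₁ ‖g.1.val i i‖ := by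
  obtain ⟨c, hc, -⟩ := g.2.2
  have h := (hc i).2
  have h1 : ‖g.1.val i i‖ = c i := by
    rw [h, norm_algebraMap', Real.norm_of_nonneg (hc i).1.le]
  rw [h1]
  exact ⟨(hc i).1, h⟩

theorem sl_prod (g : ANSL n D₁) : ∏ i, ‖g.1.val i i‖ = 1 := by
  obtain ⟨c, hc, hc1⟩ := g.2.2
  rw [← hc1]
  refine Finset.prod_congr rfl fun i _ => ?_
  rw [(hc i).2, norm_algebraMap', Real.norm_of_nonneg (hc i).1.le]

theorem sl_mul_diag (g h : ANSL n D₁) (i : Fin (n + 1)) :
    ‖(g * h).1.val i i‖ = ‖g.1.val i i‖ * ‖h.1.val i i‖ := by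
  have h1 : (g * h).1.val = g.1.val * h.1.val := rfl
  rw [h1, IsTri.mul_diag Fin.val_injective g.2.1.1 h.2.1.1, norm_mul]

theorem sl_mul_entry (g h : ANSL n D₁) (i j : Fin (n + 1)) :
    (g * h).1.val i j = ∑ k : Fin n, g.1.val i (Fin.castSucc k) * h.1.val (Fin.castSucc k) j +
      g.1.val i (Fin.last n) * h.1.val (Fin.last n) j := by
  have h1 : (g * h).1.val = g.1.val * h.1.val := rfl
  rw [h1, Matrix.mul_apply, Fin.sum_univ_castSucc]

theorem sl_one (i j : Fin (n + 1)) : (1 : ANSL n D₁).1.val i j = (1 : Matrix _ _ D₁) i j := rfl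

theorem sl_cont (i j : Fin (n + 1)) : Continuous fun g : ANSL n D₁ => g.1.val i j :=
  (Units.continuous_val.comp continuous_subtype_val).matrix_elem i j

section fam

variable [NeZero n] (ι : D₁ →ₐ[ℝ] D₂) (ξ : D₂)

/-- the scaling factor `(g_{00} g_{nn})^{-1/2}` -/
noncomputable def lam (g : ANSL n D₁) : ℝ :=
  (Real.sqrt (‖g.1.val 0 0‖ * ‖g.1.val (Fin.last n) (Fin.last n)‖))⁻¹

theorem lam_pos (g : ANSL n D₁) : 0 < lam g :=
  inv_pos.2 (Real.sqrt_pos.2 (mul_pos (sl_diag g _).1 (sl_diag g _).1))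

theorem lam_mul (g h : ANSL n D₁) : lam (g * h) = lam g * lam h := by
  rw [lam, lam, lam, sl_mul_diag, sl_mul_diag, ← mul_inv, ← Real.sqrt_mul
    (mul_nonneg (norm_nonneg _) (norm_nonneg _))]
  congr 2
  ring

theorem lam_one : lam (1 : ANSL n D₁) = 1 := by
  rw [lam, sl_one, sl_one, Matrix.one_apply_eq, Matrix.one_apply_eq, norm_one, mul_one,
    Real.sqrt_one, inv_one]

theorem lam_sq (g : ANSL n D₁) :
    lam g * lam g * ‖g.1.val 0 0‖ = ‖g.1.val (Fin.last n) (Fin.last n)‖⁻¹ := by
  have h1 := (sl_diag g 0).1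
  have h2 := (sl_diag g (Fin.last n)).1
  rw [lam, ← mul_inv, Real.mul_self_sqrt (mul_pos h1 h2).le]
  field_simp

/-- the block `P` -/
noncomputable def famP (g : ANSL n D₁) : Matrix (Fin n) (Fin n) D₂ := fun i j =>
  lam g • ι (g.1.val (Fin.castSucc i) (Fin.castSucc j))

/-- the vector `u ξ`, where `u` is the last column divided by the last diagonal entry -/
noncomputable def famw (g : ANSL n D₁) (i : Fin n) : D₂ :=
  ‖g.1.val (Fin.last n) (Fin.last n)‖⁻¹ • (ι (g.1.val (Fin.castSucc i) (Fin.last n)) * ξ)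

/-- the block `S` -/
noncomputable def famS (g : ANSL n D₁) : Matrix (Fin n) (Fin n) D₂ := fun i j =>
  (if j = 0 then famw ι ξ g i else 0) + F.ε • (if i = 0 then F.σ (famw ι ξ g j) else 0)

theorem famP_mul (g h : ANSL n D₁) : famP ι (g * h) = famP ι g * famP ι h := by
  ext i j
  rw [famP, sl_mul_entry, sl_tri h (Fin.castSucc_lt_last j), mul_zero, add_zero, map_sum,
    Matrix.mul_apply, Finset.smul_sum]
  refine Finset.sum_congr rfl fun k _ => ?_
  rw [famP, famP, map_mul, lam_mul, smul_mul_smul_comm]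

theorem famP_one : famP ι (1 : ANSL n D₁) = 1 := by
  ext i j
  rw [famP, lam_one, one_smul, sl_one]
  by_cases h : i = j
  · subst h; rw [Matrix.one_apply_eq, Matrix.one_apply_eq, map_one]
  · rw [Matrix.one_apply_ne h, Matrix.one_apply_ne (fun h' => h (Fin.castSucc_injective n h')),
      map_zero]

theorem famP_tri (g : ANSL n D₁) {i j : Fin n} (h : j < i) : famP ι g i j = 0 := by
  rw [famP, sl_tri g (by rw [Fin.lt_def]; exact h), map_zero, smul_zero]

theorem famP_diag (g : ANSL n D₁) (i : Fin n) :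
    famP ι g i i = algebraMap ℝ D₂ (lam g * ‖g.1.val (Fin.castSucc i) (Fin.castSucc i)‖) := by
  rw [famP]
  nth_rewrite 1 [(sl_diag g (Fin.castSucc i)).2]
  rw [ι.commutes, map_mul, Algebra.smul_def]

theorem famw_mul (g h : ANSL n D₁) (i : Fin n) :
    famw ι ξ (g * h) i = famw ι ξ g i + ‖g.1.val (Fin.last n) (Fin.last n)‖⁻¹ •
      ∑ k, ι (g.1.val (Fin.castSucc i) (Fin.castSucc k)) * famw ι ξ h k := by
  have h1 := (sl_diag h (Fin.last n)).1
  rw [famw, sl_mul_diag, sl_mul_entry, map_add, add_mul, smul_add, add_comm]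
  congr 1
  · nth_rewrite 2 [(sl_diag h (Fin.last n)).2]
    rw [famw, map_mul, ι.commutes, mul_inv, ← Algebra.commutes, ← Algebra.smul_def,
      smul_mul_assoc, smul_smul, mul_assoc, inv_mul_cancel₀ h1.ne', mul_one]
  · rw [map_sum, Finset.sum_mul, Finset.smul_sum, Finset.smul_sum]
    refine Finset.sum_congr rfl fun k _ => ?_
    rw [famw, mul_smul_comm, smul_smul, mul_inv, map_mul, mul_assoc]

theorem famS_sym (g : ANSL n D₁) : ctr F (famS F ι ξ g) = F.ε • famS F ι ξ g := by
  have hε := F.hε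
  have hεε : F.ε * F.ε = 1 := by rcases hε with h | h <;> rw [h] <;> norm_num
  ext i j
  rw [ctr, Matrix.smul_apply, famS, famS, map_add, map_smul, smul_add, smul_smul, hεε, one_smul,
    add_comm]
  congr 1
  · by_cases h : j = 0
    · rw [if_pos h, if_pos h, F.invol]
    · rw [if_neg h, if_neg h, map_zero]
  · by_cases h : i = 0
    · rw [if_pos h, if_pos h]
    · rw [if_neg h, if_neg h, map_zero]

theorem famP_zero (g : ANSL n D₁) (j : Fin n) :
    famP ι g j 0 = if j = 0 then algebraMap ℝ D₂ (lam g * ‖g.1.val 0 0‖) else 0 := by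
  by_cases h : j = 0
  · subst h
    rw [if_pos rfl, famP_diag, Fin.castSucc_zero']
  · rw [if_neg h, famP_tri]
    exact Fin.pos_iff_ne_zero.2 h

theorem famS_mul (g h : ANSL n D₁) :
    famS F ι ξ (g * h) = famS F ι ξ g + famP ι g * famS F ι ξ h * ctr F (famP ι g) := by
  have key : ∀ i, ∑ k, famP ι g i k * famw ι ξ h k =
      lam g • ∑ k, ι (g.1.val (Fin.castSucc i) (Fin.castSucc k)) * famw ι ξ h k := by
    intro i
    rw [Finset.smul_sum]
    refine Finset.sum_congr rfl fun k _ => ?_
    rw [famP, smul_mul_assoc]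
  have hr : lam g * ‖g.1.val 0 0‖ * lam g = ‖g.1.val (Fin.last n) (Fin.last n)‖⁻¹ := by
    rw [← lam_sq g]; ring
  have h1 : ∀ i j, (famP ι g * famS F ι ξ h * ctr F (famP ι g)) i j =
      (if j = 0 then ‖g.1.val (Fin.last n) (Fin.last n)‖⁻¹ •
        ∑ k, ι (g.1.val (Fin.castSucc i) (Fin.castSucc k)) * famw ι ξ h k else 0) +
      F.ε • (if i = 0 then F.σ (‖g.1.val (Fin.last n) (Fin.last n)‖⁻¹ •
        ∑ k, ι (g.1.val (Fin.castSucc j) (Fin.castSucc k)) * famw ι ξ h k) else 0) := by
    intro i j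
    have h2 : ∀ l, (famP ι g * famS F ι ξ h) i l =
        (if l = 0 then ∑ k, famP ι g i k * famw ι ξ h k else 0) +
          F.ε • (famP ι g i 0 * F.σ (famw ι ξ h l)) := by
      intro l
      rw [Matrix.mul_apply]
      simp only [famS, mul_add, Finset.sum_add_distrib]
      congr 1
      · by_cases hl : l = 0
        · simp only [if_pos hl]
        · simp only [if_neg hl, mul_zero, Finset.sum_const_zero]
      · simp only [mul_smul_comm, mul_ite, mul_zero]
        rw [← Finset.smul_sum, Finset.sum_ite_eq' Finset.univ (0 : Fin n),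
          if_pos (Finset.mem_univ _)]
    rw [Matrix.mul_apply]
    simp only [h2, ctr, add_mul, Finset.sum_add_distrib, ite_mul, zero_mul]
    rw [Finset.sum_ite_eq' Finset.univ (0 : Fin n), if_pos (Finset.mem_univ _)]
    congr 1
    · rw [famP_zero, key]
      by_cases hj : j = 0
      · rw [if_pos hj, if_pos hj, F.σ_real, ← Algebra.commutes, ← Algebra.smul_def, smul_smul, hr]
      · rw [if_neg hj, if_neg hj, map_zero, mul_zero]
    · simp only [smul_mul_assoc, mul_assoc]
      rw [← Finset.smul_sum, ← Finset.mul_sum]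
      congr 1
      have h3 : ∑ l, F.σ (famw ι ξ h l) * F.σ (famP ι g j l) =
          F.σ (∑ l, famP ι g j l * famw ι ξ h l) := by
        rw [map_sum]
        exact Finset.sum_congr rfl fun l _ => (F.anti _ _).symm
      rw [h3, key, famP_zero]
      by_cases hi : i = 0
      · rw [if_pos hi, if_pos hi, map_smul, map_smul, ← Algebra.smul_def, smul_smul, hr]
      · rw [if_neg hi, if_neg hi, zero_mul]
  ext i j
  rw [Matrix.add_apply, h1, famS, famS, famw_mul ι ξ g h i, famw_mul ι ξ g h j]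
  by_cases hi : i = 0 <;> by_cases hj : j = 0 <;>
    simp only [hi, hj, if_true, if_false, map_add, smul_add, smul_zero, add_zero, zero_add]
  abel

theorem lam_cont : Continuous fun g : ANSL n D₁ => lam g := by
  refine Continuous.inv₀ (((sl_cont 0 0).norm.mul (sl_cont _ _).norm).sqrt) fun g => ?_
  exact (Real.sqrt_pos.2 (mul_pos (sl_diag g _).1 (sl_diag g _).1)).ne'

variable [FiniteDimensional ℝ D₁] [FiniteDimensional ℝ D₂]

theorem ι_cont : Continuous ι := ι.toLinearMap.continuous_of_finiteDimensional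

theorem famP_cont : Continuous (famP ι : ANSL n D₁ → Matrix (Fin n) (Fin n) D₂) := by
  refine continuous_matrix fun i j => ?_
  exact lam_cont.smul ((ι_cont ι).comp (sl_cont _ _))

theorem famw_cont (i : Fin n) : Continuous fun g : ANSL n D₁ => famw ι ξ g i := by
  refine Continuous.smul ?_ (((ι_cont ι).comp (sl_cont _ _)).mul continuous_const)
  exact (sl_cont _ _).norm.inv₀ fun g => (sl_diag g _).1.ne'

theorem famS_cont : Continuous (famS F ι ξ : ANSL n D₁ → Matrix (Fin n) (Fin n) D₂) := by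
  have hσ : Continuous F.σ := F.σ.continuous_of_finiteDimensional
  refine continuous_matrix fun i j => ?_
  refine Continuous.add ?_ (Continuous.const_smul ?_ _)
  · by_cases h : j = 0
    · simp only [if_pos h]; exact famw_cont ι ξ i
    · simp only [if_neg h]; exact continuous_const
  · by_cases h : i = 0
    · simp only [if_pos h]; exact hσ.comp (famw_cont ι ξ j)
    · simp only [if_neg h]; exact continuous_const

theorem fam_ker (hξ : ∀ u : D₁, u ≠ 0 → ι u * ξ + F.ε • F.σ (ι u * ξ) ≠ 0) (g : ANSL n D₁)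
    (hP : famP ι g = 1) (hS : famS F ι ξ g = 0) : g = 1 := by
  have hinj : Function.Injective ι := ι.toRingHom.injective
  have hξ0 : ξ ≠ 0 := by
    rintro rfl
    exact hξ 1 one_ne_zero (by rw [mul_zero, map_zero, smul_zero, add_zero])
  have hd := (sl_diag g (Fin.last n)).1
  have hw : ∀ i, g.1.val (Fin.castSucc i) (Fin.last n) = 0 := by
    intro i
    have h1 := congrFun (congrFun hS i) 0
    rw [famS, if_pos rfl, Matrix.zero_apply] at h1
    by_cases hi : i = 0
    · subst hi
      rw [if_pos rfl, famw, map_smul, smul_comm, ← smul_add] at h1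
      have h2 := (smul_eq_zero_iff_right (inv_pos.2 hd).ne').1 h1
      by_contra hne
      exact hξ _ hne h2
    · rw [if_neg hi, smul_zero, add_zero, famw] at h1
      have h2 := (smul_eq_zero_iff_right (inv_pos.2 hd).ne').1 h1
      have h3 := (mul_eq_zero_iff_right hξ0).1 h2
      exact hinj (by rw [h3, map_zero])
  have hoff : ∀ i j : Fin n, i ≠ j → g.1.val (Fin.castSucc i) (Fin.castSucc j) = 0 := by
    intro i j hij
    have h1 := congrFun (congrFun hP i) j
    rw [famP, Matrix.one_apply_ne hij] at h1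
    have h2 := (smul_eq_zero_iff_right (lam_pos g).ne').1 h1
    exact hinj (by rw [h2, map_zero])
  have hdiag : ∀ i : Fin n, lam g * ‖g.1.val (Fin.castSucc i) (Fin.castSucc i)‖ = 1 := by
    intro i
    have h1 := congrFun (congrFun hP i) i
    rw [famP_diag, Matrix.one_apply_eq] at h1
    have h2 : algebraMap ℝ D₂ (lam g * ‖g.1.val (Fin.castSucc i) (Fin.castSucc i)‖) =
        algebraMap ℝ D₂ 1 := by rw [h1, map_one]
    exact (algebraMap ℝ D₂).injective h2
  have hlast : lam g * ‖g.1.val (Fin.last n) (Fin.last n)‖ = 1 := by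
    have h1 := lam_sq g
    have h2 := hdiag 0
    rw [Fin.castSucc_zero'] at h2
    rw [mul_assoc, h2, mul_one] at h1
    rw [h1, inv_mul_cancel₀ hd.ne']
  have hall : ∀ i : Fin (n + 1), lam g * ‖g.1.val i i‖ = 1 := by
    intro i
    refine Fin.lastCases hlast (fun i => hdiag i) i
  have hlam : lam g = 1 := by
    have h1 : ∏ i : Fin (n + 1), (lam g * ‖g.1.val i i‖) = 1 :=
      Finset.prod_eq_one fun i _ => hall i
    rw [Finset.prod_mul_distrib, sl_prod, mul_one, Finset.prod_const, Finset.card_univ,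
      Fintype.card_fin] at h1
    exact (pow_eq_one_iff_of_nonneg (lam_pos g).le (by omega)).1 h1
  apply Subtype.ext
  apply Units.ext
  ext i j
  change g.1.val i j = (1 : Matrix (Fin (n + 1)) (Fin (n + 1)) D₁) i j
  by_cases hij : i = j
  · subst hij
    have h1 := hall i
    rw [hlam, one_mul] at h1
    rw [(sl_diag g i).2, h1, map_one, Matrix.one_apply_eq]
  · rw [Matrix.one_apply_ne hij]
    refine Fin.lastCases ?_ (fun j => ?_) j (motive := fun j => i ≠ j → g.1.val i j = 0) hij
    · intro hi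
      refine Fin.lastCases (fun h => absurd rfl h) (fun i _ => hw i) i
        (motive := fun i => i ≠ Fin.last n → g.1.val i (Fin.last n) = 0) hi
    · intro hi
      refine Fin.lastCases (fun _ => sl_tri g (Fin.castSucc_lt_last j))
        (fun i h => hoff i j fun h' => h (by rw [h'])) i
        (motive := fun i => i ≠ Fin.castSucc j → g.1.val i (Fin.castSucc j) = 0) hi

/-- the AN-map of the first family -/
noncomputable def famData (hξ : ∀ u : D₁, u ≠ 0 → ι u * ξ + F.ε • F.σ (ι u * ξ) ≠ 0) :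
    HomData n D₁ F where
  P := famP ι
  S := famS F ι ξ
  P_one := famP_one ι
  P_mul := famP_mul ι
  P_tri := fun g _ _ h => famP_tri ι g h
  P_pos := fun g i => ⟨_, mul_pos (lam_pos g) (sl_diag g _).1, famP_diag ι g i⟩
  S_mul := famS_mul F ι ξ
  S_sym := famS_sym F ι ξ
  P_cont := famP_cont ι
  S_cont := famS_cont F ι ξ
  ker := fam_ker F ι ξ hξ

end fam

end Pool.Agent.ANM51
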