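import Pool.Agent.ANM65.Base

/-!
# From flats to a coarsely equivariant map

A map `f : A₁N₁ → G₂` which sends every flat `x A₁` within bounded distance of a flat
`h_x A₂`, affinely, can be replaced by a map at bounded distance which is coarsely equivariant for
the right action of `A₁`.
-/

namespace Pool.Agent.ANM51

open Matrix Pool.Agent.ANM65

set_option linter.unusedSectionVars false

section hall

variable {I D : Type} [Fintype I] [DecidableEq I] [NormedDivisionRing D]

/-- An invertible matrix over a division ring has a transversal of nonzero entries. -/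
theorem hall_perm (k : (Matrix I I D)ˣ) : ∃ w : Equiv.Perm I, ∀ p, k.val p (w p) ≠ 0 := by
  classical
  let t : I → Finset I := fun p => Finset.univ.filter fun q => k.val p q ≠ 0
  have hall : ∀ s : Finset I, s.card ≤ (s.biUnion t).card := by
    intro s
    let N := s.biUnion t
    let L : (s → D) →ₗ[D] (N → D) :=
      { toFun := fun c q => ∑ p : s, c p * k.val p.1 q.1
        map_add' := fun c d => by
          funext q
          simp only [Pi.add_apply, add_mul, Finset.sum_add_distrib]
        map_smul' := fun a c => by
          funext q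
          simp only [Pi.smul_apply, smul_eq_mul, mul_assoc, ← Finset.mul_sum, RingHom.id_apply] }
    have hL : Function.Injective L := by
      refine (injective_iff_map_eq_zero _).2 fun c hc => ?_
      let c' : I → D := fun p => if h : p ∈ s then c ⟨p, h⟩ else 0
      have h1 : ∀ q, ∑ p, c' p * k.val p q = 0 := by
        intro q
        have h2 : ∑ p, c' p * k.val p q = ∑ p : s, c p * k.val p.1 q := by
          rw [← Finset.sum_subset (Finset.subset_univ s), ← Finset.sum_attach]
          · refine Finset.sum_congr rfl fun p _ => ?_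
            simp only [c', dif_pos p.2]
          · intro p _ hp
            simp only [c', dif_neg hp, zero_mul]
        rw [h2]
        by_cases hq : q ∈ N
        · exact congrFun hc ⟨q, hq⟩
        · refine Finset.sum_eq_zero fun p _ => ?_
          have h3 : k.val p.1 q = 0 := by
            by_contra hne
            exact hq (Finset.mem_biUnion.2 ⟨p.1, p.2, by simp [t, hne]⟩)
          rw [h3, mul_zero]
      have h2 : ∀ r, c' r = 0 := by
        intro r
        have h3 : ∑ q, (∑ p, c' p * k.val p q) * (k⁻¹).val q r = 0 := by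
          simp only [h1, zero_mul, Finset.sum_const_zero]
        have h4 : ∑ q, (∑ p, c' p * k.val p q) * (k⁻¹).val q r =
            ∑ p, c' p * (k.val * (k⁻¹).val) p r := by
          simp only [Finset.sum_mul, Matrix.mul_apply, Finset.mul_sum, mul_assoc]
          rw [Finset.sum_comm]
        rw [h4, Units.mul_inv] at h3
        simpa [Matrix.one_apply] using h3
      funext p
      have h3 := h2 p.1
      simp only [c', dif_pos p.2] at h3
      exact h3
    have h5 := LinearMap.finrank_le_finrank_of_injective hL
    rwa [Module.finrank_fintype_fun_eq_card, Module.finrank_fintype_fun_eq_card,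
      Fintype.card_coe, Fintype.card_coe] at h5
  obtain ⟨f, hf, hft⟩ := (Finset.all_card_le_biUnion_card_iff_exists_injective t).1 hall
  refine ⟨Equiv.ofBijective f (Finite.injective_iff_bijective.1 hf), fun p => ?_⟩
  have := hft p
  simp only [t, Finset.mem_filter] at this
  exact this.2

end hall

section func

variable {n : ℕ}

theorem sum_wl (v : Fin n → ℝ) : ∑ p, wl p v = 0 := by
  rw [Fintype.sum_sum_type]
  rw [← Finset.sum_add_distrib]
  refine Finset.sum_eq_zero fun i _ => ?_
  have := wl_swap (.inl i) v
  rw [Sum.swap_inl] at this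
  rw [this, add_neg_cancel]

theorem wl_separate {p q : Fin n ⊕ Fin n} (h : ∀ v, wl p v = wl q v) : p = q := by
  have h1 : ∀ k : Fin n, (wt p k : ℝ) = wt q k := by
    intro k
    have h2 := h (Pi.single k 1)
    rw [wl_eq, wl_eq, Finset.sum_eq_single k, Finset.sum_eq_single k, Pi.single_eq_same,
      mul_one, mul_one] at h2
    · exact h2
    · intro l _ hl; rw [Pi.single_eq_of_ne hl, mul_zero]
    · intro h; exact absurd (Finset.mem_univ _) h
    · intro l _ hl; rw [Pi.single_eq_of_ne hl, mul_zero]
    · intro h; exact absurd (Finset.mem_univ _) h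
  apply wt_injective
  funext k
  exact_mod_cast h1 k

/-- Linear functionals with zero sum, each bounded above on the cone of antitone vectors,
vanish. -/
theorem cone_zero {I : Type} [Fintype I] (ℓ : I → (Fin (n + 1) → ℝ) →ₗ[ℝ] ℝ)
    (hsum : ∀ t, ∑ p, ℓ p t = 0) (c : I → ℝ)
    (hb : ∀ p (t : Fin (n + 1) → ℝ), Antitone t → ℓ p t ≤ c p) (p : I) (t : Fin (n + 1) → ℝ) :
    ℓ p t = 0 := by
  have h1 : ∀ p (t : Fin (n + 1) → ℝ), Antitone t → ℓ p t ≤ 0 := by
    intro p t ht
    by_contra hpos
    push Not at hpos
    obtain ⟨N, hN⟩ := exists_nat_gt (c p / ℓ p t)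
    have h2 := hb p ((N : ℝ) • t) (by
      intro i j hij
      exact mul_le_mul_of_nonneg_left (ht hij) (Nat.cast_nonneg N))
    rw [map_smul, smul_eq_mul] at h2
    rw [div_lt_iff₀ hpos] at hN
    linarith
  have h2 : ∀ p (t : Fin (n + 1) → ℝ), Antitone t → ℓ p t = 0 := by
    intro p t ht
    have h3 := (Finset.sum_eq_zero_iff_of_nonpos fun q _ => h1 q t ht).1 (hsum t)
    exact h3 p (Finset.mem_univ p)
  -- every vector is a difference of antitone ones
  set M : ℝ := ∑ i, ∑ j, |t i - t j| with hM
  have hMb : ∀ i j, |t i - t j| ≤ M := by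
    intro i j
    have h3 : |t i - t j| ≤ ∑ j, |t i - t j| :=
      Finset.single_le_sum (f := fun j => |t i - t j|) (fun _ _ => abs_nonneg _)
        (Finset.mem_univ j)
    refine h3.trans ?_
    exact Finset.single_le_sum (f := fun i => ∑ j, |t i - t j|)
      (fun _ _ => Finset.sum_nonneg fun _ _ => abs_nonneg _) (Finset.mem_univ i)
  have hM0 : 0 ≤ M := (abs_nonneg _).trans (hMb 0 0)
  let ρ : Fin (n + 1) → ℝ := fun i => -(i : ℕ)
  have hρ : Antitone (M • ρ) := by
    intro i j hij
    refine mul_le_mul_of_nonneg_left ?_ hM0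
    have : ((i : ℕ) : ℝ) ≤ ((j : ℕ) : ℝ) := by exact_mod_cast hij
    simp only [ρ]; linarith
  have htρ : Antitone (t + M • ρ) := by
    intro i j hij
    rcases hij.eq_or_lt with rfl | hlt
    · exact le_refl _
    · have h3 : ((i : ℕ) : ℝ) + 1 ≤ ((j : ℕ) : ℝ) := by
        have h5 : (i : ℕ) + 1 ≤ (j : ℕ) := hlt
        exact_mod_cast h5
      have h4 := (le_abs_self _).trans (hMb j i)
      simp only [Pi.add_apply, Pi.smul_apply, smul_eq_mul, ρ]
      nlinarith
  have h3 := h2 p _ htρ
  rw [map_add, h2 p _ hρ, add_zero] at h3
  exact h3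

end func

end Pool.Agent.ANM51
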