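import Pool.Agent.ANM51.Mono

/-!
# Reduction of the flat hypothesis to coarse equivariance
-/

namespace Pool.Agent.ANM51

open Matrix Pool.Agent.ANM65

set_option linter.unusedSectionVars false

variable {n : ℕ} {D₁ D₂ : Type} [NormedDivisionRing D₁] [NormedAlgebra ℝ D₁]
  [NormedDivisionRing D₂] [NormedAlgebra ℝ D₂] {F : FormData D₂}

/-- Coarse embeddings `A₁N₁ → G₂`, for the left-invariant coarse structures. -/
structure CoarseEmb (f : ANSL n D₁ → (Matrix (Fin n ⊕ Fin n) (Fin n ⊕ Fin n) D₂)ˣ) : Prop where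
  up : ∀ R : ℝ, ∃ S : ℝ, ∀ x y : ANSL n D₁, Bd R (x⁻¹ * y).1 → Bd S ((f x)⁻¹ * f y)
  lo : ∀ R : ℝ, ∃ S : ℝ, ∀ x y : ANSL n D₁, Bd R ((f x)⁻¹ * f y) → Bd S (x⁻¹ * y).1

/-- Every flat `x A₁` is mapped within distance `C` of a flat of `G₂/K₂`, affinely. -/
def FlatHyp (F : FormData D₂) (f : ANSL n D₁ → (Matrix (Fin n ⊕ Fin n) (Fin n ⊕ Fin n) D₂)ˣ)
    (C : ℝ) : Prop :=
  ∀ x : ANSL n D₁, ∃ h ∈ FormGrp n F, ∃ T : (Fin (n + 1) → ℝ) →ₗ[ℝ] (Fin n → ℝ),
    ∀ t, Bd C ((h * bor D₂ (T t))⁻¹ * f (x * tor D₁ t))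

/-- Coarse equivariance for the right action of `A₁`. -/
def EquivHyp (f : ANSL n D₁ → (Matrix (Fin n ⊕ Fin n) (Fin n ⊕ Fin n) D₂)ˣ)
    (T : (Fin (n + 1) → ℝ) →ₗ[ℝ] (Fin n → ℝ)) (C : ℝ) : Prop :=
  ∀ (x : ANSL n D₁) (t : Fin (n + 1) → ℝ), Bd C ((f x * bor D₂ (T t))⁻¹ * f (x * tor D₁ t))

/-- conjugation by torus elements contracts on the cone of antitone parameters -/
theorem cone_bd (u : ANSL n D₁) : ∃ R : ℝ, ∀ t : Fin (n + 1) → ℝ, Antitone t →
    Bd R ((tor D₁ t)⁻¹ * u * tor D₁ t).1 := by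
  have key : ∀ (v : ANSL n D₁) (t : Fin (n + 1) → ℝ), Antitone t → ∀ p q,
      ‖((tor D₁ t)⁻¹ * v * tor D₁ t).1.val p q‖ ≤ ‖v.1.val p q‖ := by
    intro v t ht p q
    have h1 : ((tor D₁ t)⁻¹ * v * tor D₁ t).1.val = torM D₁ (-t) * v.1.val * torM D₁ t := rfl
    rw [h1, torM, torM, Matrix.mul_diagonal, Matrix.diagonal_mul, norm_mul, norm_mul,
      norm_algebraMap', norm_algebraMap', Real.norm_of_nonneg (tval_pos _ _).le,
      Real.norm_of_nonneg (tval_pos _ _).le]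
    rcases le_or_gt p q with hpq | hpq
    · have h2 : tval (-t) p * tval t q ≤ 1 := by
        rw [tval_div t q p]
        have h3 : tval (-t) p * tval t p = 1 := by
          rw [← tval_add, neg_add_cancel, tval_zero]
        have h4 : Real.exp (t q - t p) ≤ 1 := by
          rw [Real.exp_le_one_iff]
          linarith [ht hpq]
        calc tval (-t) p * (Real.exp (t q - t p) * tval t p)
            = Real.exp (t q - t p) * (tval (-t) p * tval t p) := by ring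
          _ ≤ 1 := by rw [h3, mul_one]; exact h4
      calc tval (-t) p * ‖v.1.val p q‖ * tval t q
          = (tval (-t) p * tval t q) * ‖v.1.val p q‖ := by ring
        _ ≤ 1 * ‖v.1.val p q‖ := mul_le_mul_of_nonneg_right h2 (norm_nonneg _)
        _ = _ := one_mul _
    · rw [v.2.1.1 p q hpq, norm_zero, mul_zero, zero_mul]
  refine ⟨(∑ p, ∑ q, ‖u.1.val p q‖) + ∑ p, ∑ q, ‖(u⁻¹).1.val p q‖, fun t ht p q => ?_⟩
  have hs : ∀ v : ANSL n D₁, ‖v.1.val p q‖ ≤ ∑ p, ∑ q, ‖v.1.val p q‖ := by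
    intro v
    have h3 : ‖v.1.val p q‖ ≤ ∑ q, ‖v.1.val p q‖ :=
      Finset.single_le_sum (f := fun q => ‖v.1.val p q‖) (fun _ _ => norm_nonneg _)
        (Finset.mem_univ q)
    exact h3.trans (Finset.single_le_sum (f := fun p => ∑ q, ‖v.1.val p q‖)
      (fun _ _ => Finset.sum_nonneg fun _ _ => norm_nonneg _) (Finset.mem_univ p))
  have hn : ∀ v : ANSL n D₁, 0 ≤ ∑ p, ∑ q, ‖v.1.val p q‖ := fun v =>
    Finset.sum_nonneg fun _ _ => Finset.sum_nonneg fun _ _ => norm_nonneg _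
  constructor
  · have h1 := (key u t ht p q).trans (hs u)
    have h2 := hn u⁻¹
    linarith
  · have h0 : (((tor D₁ t)⁻¹ * u * tor D₁ t).1)⁻¹ = ((tor D₁ t)⁻¹ * u⁻¹ * tor D₁ t).1 := by
      have : ((tor D₁ t)⁻¹ * u * tor D₁ t)⁻¹ = (tor D₁ t)⁻¹ * u⁻¹ * tor D₁ t := by group
      rw [← this]; rfl
    rw [h0]
    have h1 := (key u⁻¹ t ht p q).trans (hs u⁻¹)
    have h2 := hn u
    linarith

/-- The linear map attached to a flat is injective modulo constants, hence surjective. -/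
theorem flat_surj {f : ANSL n D₁ → (Matrix (Fin n ⊕ Fin n) (Fin n ⊕ Fin n) D₂)ˣ}
    (hlo : ∀ R : ℝ, ∃ S : ℝ, ∀ x y : ANSL n D₁, Bd R ((f x)⁻¹ * f y) → Bd S (x⁻¹ * y).1)
    {C : ℝ} {x : ANSL n D₁} {h : (Matrix (Fin n ⊕ Fin n) (Fin n ⊕ Fin n) D₂)ˣ}
    {T : (Fin (n + 1) → ℝ) →ₗ[ℝ] (Fin n → ℝ)}
    (hT : ∀ t, Bd C ((h * bor D₂ (T t))⁻¹ * f (x * tor D₁ t))) : Function.Surjective T := by
  have hker : ∀ t, T t = 0 → ∀ i, t i = (∑ j, t j) / (n + 1) := by
    intro t ht i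
    -- along the line `ℝ t` the image stays bounded
    have h0 : Bd C (h⁻¹ * f x) := by
      have h1 := hT 0
      have h2 : tor D₁ (0 : Fin (n + 1) → ℝ) = 1 := by
        apply Subtype.ext
        apply Units.ext
        exact torM_zero
      rwa [map_zero, bor_zero, mul_one, h2, mul_one] at h1
    obtain ⟨S, hS⟩ := hlo (Fintype.card (Fin n ⊕ Fin n) * (C * C))
    have h1 : ∀ r : ℝ, Bd S (tor D₁ (r • t)).1 := by
      intro r
      have h2 := hT (r • t)
      rw [map_smul, ht, smul_zero, bor_zero, mul_one] at h2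
      have h3 := h0.inv.mul h2
      have h4 : (h⁻¹ * f x)⁻¹ * (h⁻¹ * f (x * tor D₁ (r • t))) =
          (f x)⁻¹ * f (x * tor D₁ (r • t)) := by group
      rw [h4] at h3
      have h5 := hS x (x * tor D₁ (r • t)) h3
      rwa [inv_mul_cancel_left] at h5
    have h2 : ∀ r : ℝ, Real.exp (r * (t i - (∑ j, t j) / (n + 1))) ≤ S := by
      intro r
      have h3 := (h1 r i i).1
      have h4 : (tor D₁ (r • t)).1.val i i = algebraMap ℝ D₁ (tval (r • t) i) :=
        torM_diag (r • t) i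
      rw [h4, norm_algebraMap', Real.norm_of_nonneg (tval_pos _ _).le] at h3
      have h5 : tval (r • t) i = Real.exp (r * (t i - (∑ j, t j) / (n + 1))) := by
        rw [tval]
        congr 1
        simp only [Pi.smul_apply, smul_eq_mul, ← Finset.mul_sum]
        ring
      rwa [h5] at h3
    by_contra hne
    have hne' : t i - (∑ j, t j) / (n + 1) ≠ 0 := sub_ne_zero.2 hne
    have h3 := h2 (S / (t i - (∑ j, t j) / (n + 1)))
    rw [div_mul_cancel₀ _ hne'] at h3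
    have h4 := Real.add_one_le_exp S
    linarith
  -- dimension count
  have hk : Module.finrank ℝ (LinearMap.ker T) ≤ 1 := by
    refine (Submodule.finrank_mono (t := Submodule.span ℝ {fun _ : Fin (n + 1) => (1 : ℝ)}) ?_).trans
      ((finrank_span_le_card _).trans (by simp))
    intro t ht
    rw [Submodule.mem_span_singleton]
    refine ⟨(∑ j, t j) / (n + 1), ?_⟩
    funext i
    rw [hker t ht i]
    simp
  have hrk := LinearMap.finrank_range_add_finrank_ker T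
  rw [Module.finrank_fintype_fun_eq_card, Fintype.card_fin] at hrk
  rw [← LinearMap.range_eq_top]
  apply Submodule.eq_top_of_finrank_eq
  have h1 : Module.finrank ℝ (LinearMap.range T) ≤ n := by
    have := Submodule.finrank_le (LinearMap.range T)
    rwa [Module.finrank_fintype_fun_eq_card, Fintype.card_fin] at this
  rw [Module.finrank_fintype_fun_eq_card, Fintype.card_fin]
  omega

/-- Two flats: their linear maps agree up to a signed permutation. -/
theorem flat_compare {f : ANSL n D₁ → (Matrix (Fin n ⊕ Fin n) (Fin n ⊕ Fin n) D₂)ˣ}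
    (hf : CoarseEmb f) {C : ℝ} {x y : ANSL n D₁}
    {h k : (Matrix (Fin n ⊕ Fin n) (Fin n ⊕ Fin n) D₂)ˣ}
    {T U : (Fin (n + 1) → ℝ) →ₗ[ℝ] (Fin n → ℝ)}
    (hT : ∀ t, Bd C ((h * bor D₂ (T t))⁻¹ * f (x * tor D₁ t)))
    (hU : ∀ t, Bd C ((k * bor D₂ (U t))⁻¹ * f (y * tor D₁ t))) :
    ∃ w : Equiv.Perm (Fin n ⊕ Fin n), (∀ p, w p.swap = (w p).swap) ∧
      ∀ p t, wl p (T t) = wl (w p) (U t) := by
  obtain ⟨R, hR⟩ := cone_bd (x⁻¹ * y)
  obtain ⟨S, hS⟩ := hf.up R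
  set N : ℝ := (Fintype.card (Fin n ⊕ Fin n) : ℝ) with hN
  set S' : ℝ := N * (N * (C * S) * C) with hS'
  have hbd : ∀ t : Fin (n + 1) → ℝ, Antitone t →
      Bd S' ((bor D₂ (T t))⁻¹ * (h⁻¹ * k) * bor D₂ (U t)) := by
    intro t ht
    have h1 := hS (x * tor D₁ t) (y * tor D₁ t) (by
      have h2 : (x * tor D₁ t)⁻¹ * (y * tor D₁ t) = (tor D₁ t)⁻¹ * (x⁻¹ * y) * tor D₁ t := by
        group
      rw [h2]
      exact hR t ht)
    have h3 := ((hT t).mul h1).mul (hU t).inv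
    have h4 : (h * bor D₂ (T t))⁻¹ * f (x * tor D₁ t) *
        ((f (x * tor D₁ t))⁻¹ * f (y * tor D₁ t)) *
        ((k * bor D₂ (U t))⁻¹ * f (y * tor D₁ t))⁻¹ =
        (bor D₂ (T t))⁻¹ * (h⁻¹ * k) * bor D₂ (U t) := by group
    rw [h4] at h3
    exact h3
  obtain ⟨w, hw⟩ := hall_perm (h⁻¹ * k)
  have hentry : ∀ (t : Fin (n + 1) → ℝ) p q,
      ‖((bor D₂ (T t))⁻¹ * (h⁻¹ * k) * bor D₂ (U t)).val p q‖ =
        Real.exp (wl q (U t) - wl p (T t)) * ‖(h⁻¹ * k).val p q‖ := by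
    intro t p q
    have h1 : ((bor D₂ (T t))⁻¹ * (h⁻¹ * k) * bor D₂ (U t)).val =
        borM D₂ (-(T t)) * (h⁻¹ * k).val * borM D₂ (U t) := rfl
    rw [h1, borM, borM, Matrix.mul_diagonal, Matrix.diagonal_mul, norm_mul, norm_mul,
      norm_algebraMap', norm_algebraMap', Real.norm_of_nonneg (Real.exp_pos _).le,
      Real.norm_of_nonneg (Real.exp_pos _).le, map_neg, sub_eq_add_neg, Real.exp_add]
    ring
  have hzero : ∀ p t, (wl (w p) ∘ₗ U - wl p ∘ₗ T) t = 0 := by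
    refine cone_zero (fun p => wl (w p) ∘ₗ U - wl p ∘ₗ T) ?_
      (fun p => Real.log (S' / ‖(h⁻¹ * k).val p (w p)‖)) ?_
    · intro t
      simp only [LinearMap.sub_apply, LinearMap.comp_apply, Finset.sum_sub_distrib]
      rw [sum_wl, sub_zero, Equiv.sum_comp w (fun p => wl p (U t)), sum_wl]
    · intro p t ht
      have h1 := (hbd t ht p (w p)).1
      rw [hentry] at h1
      have hpos : 0 < ‖(h⁻¹ * k).val p (w p)‖ := norm_pos_iff.2 (hw p)
      rw [← le_div_iff₀ hpos] at h1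
      have h2 := (Real.exp_pos _).trans_le h1
      simp only [LinearMap.sub_apply, LinearMap.comp_apply]
      exact (Real.le_log_iff_exp_le h2).2 h1
  have heq : ∀ p t, wl p (T t) = wl (w p) (U t) := by
    intro p t
    have h1 := hzero p t
    simp only [LinearMap.sub_apply, LinearMap.comp_apply] at h1
    linarith
  have hUs : Function.Surjective U := flat_surj hf.lo hU
  refine ⟨w, fun p => ?_, heq⟩
  apply wl_separate
  intro v
  obtain ⟨t, rfl⟩ := hUs v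
  rw [← heq, wl_swap, wl_swap, heq]

/-- **Reduction.** A coarse embedding which maps the flats `x A₁` affinely to within bounded
distance of flats is at bounded distance from one which is coarsely `A₁`-equivariant. -/
theorem flat_reduction {f : ANSL n D₁ → (Matrix (Fin n ⊕ Fin n) (Fin n ⊕ Fin n) D₂)ˣ}
    (hf : CoarseEmb f) {C : ℝ} (hC : FlatHyp F f C) :
    ∃ (f' : ANSL n D₁ → (Matrix (Fin n ⊕ Fin n) (Fin n ⊕ Fin n) D₂)ˣ)
      (T : (Fin (n + 1) → ℝ) →ₗ[ℝ] (Fin n → ℝ)) (C' : ℝ),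
      (∀ x, f' x ∈ FormGrp n F) ∧ CoarseEmb f' ∧ EquivHyp f' T C' := by
  choose h hh T hT using hC
  choose w hw hwT using fun x : ANSL n D₁ => flat_compare hf (hT x) (hT 1)
  set N : ℝ := (Fintype.card (Fin n ⊕ Fin n) : ℝ) with hN
  have h0 : ∀ x, Bd C ((h x)⁻¹ * f x) := by
    intro x
    have h1 := hT x 0
    have h2 : tor D₁ (0 : Fin (n + 1) → ℝ) = 1 := by
      apply Subtype.ext
      apply Units.ext
      exact torM_zero
    rwa [map_zero, bor_zero, mul_one, h2, mul_one] at h1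
  let m : ANSL n D₁ → (Matrix (Fin n ⊕ Fin n) (Fin n ⊕ Fin n) D₂)ˣ := fun x => monoU F (w x)
  have hm : ∀ x, Bd 1 (m x) := fun x => monoU_bd F (w x)
  let f' : ANSL n D₁ → (Matrix (Fin n ⊕ Fin n) (Fin n ⊕ Fin n) D₂)ˣ := fun x => h x * m x
  -- `f` and `f'` are at bounded distance
  have hff' : ∀ x, Bd (N * (C * 1)) ((f x)⁻¹ * f' x) := by
    intro x
    have h1 := (h0 x).inv.mul (hm x)
    have h2 : ((h x)⁻¹ * f x)⁻¹ * m x = (f x)⁻¹ * f' x := by
      simp only [f']; group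
    rwa [h2] at h1
  refine ⟨f', T 1, N * (N * (1 * C) * (N * (C * 1))), fun x => ?_, ⟨fun R => ?_, fun R => ?_⟩, ?_⟩
  · exact mul_mem (hh x) (monoU_mem F (hw x))
  · obtain ⟨S, hS⟩ := hf.up R
    refine ⟨N * (N * (N * (C * 1) * S) * (N * (C * 1))), fun x y hxy => ?_⟩
    have h1 := ((hff' x).inv.mul (hS x y hxy)).mul (hff' y)
    have h2 : ((f x)⁻¹ * f' x)⁻¹ * ((f x)⁻¹ * f y) * ((f y)⁻¹ * f' y) = (f' x)⁻¹ * f' y := by
      group
    rwa [h2] at h1
  · obtain ⟨S, hS⟩ := hf.lo (N * (N * (N * (C * 1) * R) * (N * (C * 1))))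
    refine ⟨S, fun x y hxy => hS x y ?_⟩
    have h1 := ((hff' x).mul hxy).mul (hff' y).inv
    have h2 : (f x)⁻¹ * f' x * ((f' x)⁻¹ * f' y) * ((f y)⁻¹ * f' y)⁻¹ = (f x)⁻¹ * f y := by
      group
    rwa [h2] at h1
  · intro x t
    have h1 : bor D₂ (T x t) * m x = m x * bor D₂ (T 1 t) :=
      bor_monoU F fun p => hwT x p t
    have h2 := ((hm x).inv.mul (hT x t)).mul (hff' (x * tor D₁ t))
    have h3 : (m x)⁻¹ * ((h x * bor D₂ (T x t))⁻¹ * f (x * tor D₁ t)) *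
        ((f (x * tor D₁ t))⁻¹ * f' (x * tor D₁ t)) =
        (h x * (bor D₂ (T x t) * m x))⁻¹ * f' (x * tor D₁ t) := by group
    rw [h3, h1] at h2
    have h4 : h x * (m x * bor D₂ (T 1 t)) = f' x * bor D₂ (T 1 t) := by
      simp only [f']; group
    rwa [h4] at h2

end Pool.Agent.ANM51
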