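import Pool.Agent.ANM51.Lead

/-!
# The form: relations between the entries of elements of the minimal parabolic
-/

namespace Pool.Agent.ANM51

open Matrix

set_option linter.unusedSectionVars false

theorem lev_swap {n : ℕ} (p : Fin n ⊕ Fin n) : lev n p + lev n p.swap = 2 * n - 1 := by
  rcases p with i | i
  · have := i.2
    rw [Sum.swap_inl]; simp only [lev]; omega
  · have := i.2
    rw [Sum.swap_inr]; simp only [lev]; omega

theorem lev_lt {n : ℕ} (p : Fin n ⊕ Fin n) : lev n p ≤ 2 * n - 1 := by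
  have := lev_swap p; omega

variable {D : Type} [NormedDivisionRing D] [NormedAlgebra ℝ D] (F : FormData D) {n : ℕ}

theorem FormData.ε_mul_self : F.ε * F.ε = 1 := by
  rcases F.hε with h | h <;> rw [h] <;> norm_num

theorem FormData.ε_ne_zero : F.ε ≠ 0 := by
  rcases F.hε with h | h <;> rw [h] <;> norm_num

/-- the nonzero entry of the form matrix in the row of `a` -/
noncomputable def jc (n : ℕ) : Fin n ⊕ Fin n → ℝ
  | .inl _ => 1
  | .inr _ => -F.ε

theorem jc_ne_zero (a : Fin n ⊕ Fin n) : jc F n a ≠ 0 := by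
  rcases a with i | i
  · exact one_ne_zero
  · exact neg_ne_zero.2 F.ε_ne_zero

theorem Jmat_apply (a b : Fin n ⊕ Fin n) :
    Jmat F n a b = if b = a.swap then algebraMap ℝ D (jc F n a) else 0 := by
  rcases a with i | i <;> rcases b with j | j
  · simp [Jmat, Sum.swap]
  · by_cases h : j = i
    · subst h; simp [Jmat, Sum.swap, jc]
    · simp [Jmat, Matrix.one_apply_ne (Ne.symm h), h]
  · by_cases h : j = i
    · subst h
      simp [Jmat, Sum.swap, jc, Algebra.algebraMap_eq_smul_one]
    · simp [Jmat, Matrix.one_apply_ne (Ne.symm h), h]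
  · simp [Jmat, Sum.swap]

theorem form_entry {g : Matrix (Fin n ⊕ Fin n) (Fin n ⊕ Fin n) D} (p q : Fin n ⊕ Fin n) :
    (ctr F g * Jmat F n * g) p q = ∑ a, jc F n a • (F.σ (g a p) * g a.swap q) := by
  rw [mul_assoc, Matrix.mul_apply]
  refine Finset.sum_congr rfl fun a _ => ?_
  rw [Matrix.mul_apply, Finset.sum_eq_single a.swap]
  · rw [Jmat_apply, if_pos rfl, ctr, ← Algebra.smul_def, mul_smul_comm]
  · intro b _ hb
    rw [Jmat_apply, if_neg hb, zero_mul]
  · intro h; exact absurd (Finset.mem_univ _) h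

theorem swap_ne {p : Fin n ⊕ Fin n} : p.swap ≠ p := by
  rcases p with i | i <;> simp [Sum.swap]

/-- diagonal entries of partner indices -/
theorem diag_partner {g : Matrix (Fin n ⊕ Fin n) (Fin n ⊕ Fin n) D} (hg : IsTri (lev n) g)
    (hform : ctr F g * Jmat F n * g = Jmat F n) (p : Fin n ⊕ Fin n) :
    F.σ (g p p) * g p.swap p.swap = 1 := by
  have h1 := form_entry F (g := g) p p.swap
  rw [hform, Jmat_apply, if_pos rfl, Finset.sum_eq_single p] at h1
  · rw [Algebra.algebraMap_eq_smul_one] at h1
    exact (smul_right_injective D (jc_ne_zero F p) h1).symm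
  · intro a _ ha
    rcases lt_trichotomy (lev n a) (lev n p) with h2 | h2 | h2
    · have := lev_swap a; have := lev_swap p
      rw [hg a.swap p.swap (by omega), mul_zero, smul_zero]
    · exact absurd (lev_injective n h2) ha
    · rw [hg a p h2, map_zero, zero_mul, smul_zero]
  · intro h; exact absurd (Finset.mem_univ _) h

theorem norm_diag_partner {g : Matrix (Fin n ⊕ Fin n) (Fin n ⊕ Fin n) D}
    (hg : IsTri (lev n) g) (hform : ctr F g * Jmat F n * g = Jmat F n) (p : Fin n ⊕ Fin n) :
    ‖g p p‖ * ‖g p.swap p.swap‖ = 1 := by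
  have h := congrArg norm (diag_partner F hg hform p)
  rwa [norm_mul, F.norm_σ, norm_one] at h

/-- leading entries of partner positions -/
theorem lead_partner {ℓ : ℕ} (hl : 0 < ℓ) {h : Matrix (Fin n ⊕ Fin n) (Fin n ⊕ Fin n) D}
    (hh : Uni (lev n) ℓ h) (hform : ctr F h * Jmat F n * h = Jmat F n) {r q : Fin n ⊕ Fin n}
    (hrq : lev n q = lev n r + ℓ) :
    jc F n r.swap • h r q + jc F n q.swap • F.σ (h q.swap r.swap) = 0 := by
  have hne : r ≠ q := by rintro rfl; omega
  have h1 := form_entry F (g := h) r.swap q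
  rw [hform, Jmat_apply, if_neg (by rw [Sum.swap_swap]; exact Ne.symm hne)] at h1
  have hqr : q.swap ≠ r.swap := fun h => hne (by
    have := congrArg Sum.swap h
    rw [Sum.swap_swap, Sum.swap_swap] at this
    exact this.symm)
  rw [← Finset.add_sum_erase _ _ (Finset.mem_univ r.swap),
    ← Finset.add_sum_erase _ _ (Finset.mem_erase.2 ⟨hqr, Finset.mem_univ q.swap⟩),
    Finset.sum_eq_zero, add_zero, hh.1, F.σ_one, one_mul, Sum.swap_swap, Sum.swap_swap,
    hh.1, mul_one] at h1
  · exact h1.symm
  · intro a ha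
    rw [Finset.mem_erase, Finset.mem_erase] at ha
    by_cases h2 : lev n r.swap < lev n a + ℓ
    · rw [hh.2 a r.swap ha.2.1 h2, map_zero, zero_mul, smul_zero]
    · have hsa : a.swap ≠ q := fun h => ha.1 (by rw [← h, Sum.swap_swap])
      have := lev_swap a; have := lev_swap r
      rw [hh.2 a.swap q hsa (by omega), mul_zero, smul_zero]

end Pool.Agent.ANM51
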