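import Pool.Agent.ANM51.Mult
import Pool.Agent.ANM51.Fam

/-!
# The five form types and the dimensions of their root spaces
-/

namespace Pool.Agent.ANM51

open Matrix

open scoped Quaternion

/-- `Sp_{2n}(ℝ)`: `D = ℝ`, trivial involution, `ε = 1`; multiplicities `(1, 1)`. -/
noncomputable def formSpR : FormData ℝ where
  σ := LinearMap.id
  anti x y := mul_comm x y
  invol _ := rfl
  norm_σ _ := rfl
  ε := 1
  hε := Or.inl rfl

/-- `Sp_{2n}(ℂ)`: `D = ℂ`, trivial involution, `ε = 1`; multiplicities `(2, 2)`. -/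
noncomputable def formSpC : FormData ℂ where
  σ := LinearMap.id
  anti x y := mul_comm x y
  invol _ := rfl
  norm_σ _ := rfl
  ε := 1
  hε := Or.inl rfl

/-- `SU(n,n)`: `D = ℂ`, complex conjugation, `ε = 1`; multiplicities `(2, 1)`. -/
noncomputable def formSU : FormData ℂ where
  σ :=
    { toFun := fun z => star z
      map_add' := fun x y => star_add x y
      map_smul' := fun r x => by
        rw [RingHom.id_apply, Complex.real_smul, star_mul', Complex.real_smul]
        congr 1
        exact Complex.conj_ofReal r }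
  anti x y := star_mul x y
  invol x := star_star x
  norm_σ x := norm_star x
  ε := 1
  hε := Or.inl rfl

/-- quaternionic conjugation as a real-linear map -/
noncomputable def qconj : ℍ[ℝ] →ₗ[ℝ] ℍ[ℝ] where
  toFun z := star z
  map_add' x y := star_add x y
  map_smul' r x := by
    rw [RingHom.id_apply]
    ext <;> simp

/-- `SO^*(4n)`: `D = ℍ`, quaternionic conjugation, `ε = 1`; multiplicities `(4, 1)`. -/
noncomputable def formSOs : FormData ℍ[ℝ] where
  σ := qconj
  anti x y := star_mul x y
  invol x := star_star x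
  norm_σ x := norm_star x
  ε := 1
  hε := Or.inl rfl

/-- `Sp(n,n)`: `D = ℍ`, quaternionic conjugation, `ε = -1`; multiplicities `(4, 3)`. -/
noncomputable def formSpnn : FormData ℍ[ℝ] where
  σ := qconj
  anti x y := star_mul x y
  invol x := star_star x
  norm_σ x := norm_star x
  ε := -1
  hε := Or.inr rfl

theorem finrank_H : Module.finrank ℝ ℍ[ℝ] = 4 := Quaternion.finrank_eq_four

instance : FiniteDimensional ℝ ℍ[ℝ] := by
  apply Module.finite_of_finrank_pos
  rw [finrank_H]; norm_num

theorem L_SU_le : Module.finrank ℝ formSU.L ≤ 1 := by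
  refine finrank_le_one (⟨1, ?_⟩ : formSU.L) ?_
  · rw [FormData.mem_L]
    change star (1 : ℂ) = (1 : ℝ) • (1 : ℂ)
    rw [star_one, one_smul]
  · rintro ⟨z, hz⟩
    rw [FormData.mem_L] at hz
    change star z = (1 : ℝ) • z at hz
    rw [one_smul] at hz
    refine ⟨z.re, ?_⟩
    apply Subtype.ext
    change z.re • (1 : ℂ) = z
    have h1 : (starRingEnd ℂ) z = z := hz
    rw [Complex.conj_eq_iff_real] at h1
    obtain ⟨r, hr⟩ := h1
    rw [hr]
    simp

theorem L_SOs_le : Module.finrank ℝ formSOs.L ≤ 1 := by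
  refine finrank_le_one (⟨1, ?_⟩ : formSOs.L) ?_
  · rw [FormData.mem_L]
    change star (1 : ℍ[ℝ]) = (1 : ℝ) • (1 : ℍ[ℝ])
    rw [star_one, one_smul]
  · rintro ⟨z, hz⟩
    rw [FormData.mem_L] at hz
    change star z = (1 : ℝ) • z at hz
    rw [one_smul] at hz
    refine ⟨z.re, ?_⟩
    apply Subtype.ext
    change z.re • (1 : ℍ[ℝ]) = z
    have h1 := congrArg (fun q : ℍ[ℝ] => q.imI) hz
    have h2 := congrArg (fun q : ℍ[ℝ] => q.imJ) hz
    have h3 := congrArg (fun q : ℍ[ℝ] => q.imK) hz
    simp only [Quaternion.imI_star, Quaternion.imJ_star, Quaternion.imK_star] at h1 h2 h3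
    ext
    · simp
    · simp; linarith
    · simp; linarith
    · simp; linarith

theorem L_Spnn_lt : Module.finrank ℝ formSpnn.L < 4 := by
  rw [← finrank_H]
  refine Submodule.finrank_lt ?_
  intro htop
  have h1 : (1 : ℍ[ℝ]) ∈ formSpnn.L := by rw [htop]; exact Submodule.mem_top
  rw [FormData.mem_L] at h1
  change star (1 : ℍ[ℝ]) = (-1 : ℝ) • (1 : ℍ[ℝ]) at h1
  rw [star_one] at h1
  have h2 := congrArg (fun q : ℍ[ℝ] => q.re) h1
  norm_num at h2

end Pool.Agent.ANM51
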