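import Pool.Agent.ANM51.Defs

/-!
# Leading terms of unipotent upper triangular matrices
-/

namespace Pool.Agent.ANM51

open Matrix

set_option linter.unusedSectionVars false

variable {I D : Type} [Fintype I] [DecidableEq I] [NormedDivisionRing D]

/-- `h` has ones on the diagonal and its off-diagonal entries vanish below level `ℓ`. -/
def Uni (lv : I → ℕ) (ℓ : ℕ) (h : Matrix I I D) : Prop :=
  (∀ p, h p p = 1) ∧ ∀ p q, p ≠ q → lv q < lv p + ℓ → h p q = 0

theorem Uni.isTri {lv : I → ℕ} {ℓ : ℕ} {h : Matrix I I D} (hh : Uni lv ℓ h) : IsTri lv h := by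
  intro p q hpq
  refine hh.2 p q ?_ (by omega)
  rintro rfl; omega

/-- expansion of an entry of a product, off the two extreme indices -/
theorem mul_apply_split (g h : Matrix I I D) {p q : I} (hpq : p ≠ q) :
    (g * h) p q = g p p * h p q + g p q * h q q +
      ∑ r ∈ (Finset.univ.erase p).erase q, g p r * h r q := by
  rw [Matrix.mul_apply, ← Finset.add_sum_erase _ _ (Finset.mem_univ p),
    ← Finset.add_sum_erase _ _ (Finset.mem_erase.2 ⟨Ne.symm hpq, Finset.mem_univ q⟩), add_assoc]

theorem Uni.mul_entry {lv : I → ℕ} {ℓ : ℕ}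
    {h k : Matrix I I D} (hh : Uni lv ℓ h) (hk : Uni lv ℓ k) {p q : I}
    (hpq : lv q < lv p + 2 * ℓ) (hne : p ≠ q) : (h * k) p q = h p q + k p q := by
  rw [mul_apply_split h k hne, hh.1, hk.1, one_mul, mul_one]
  rw [Finset.sum_eq_zero, add_zero, add_comm]
  intro r hr
  rw [Finset.mem_erase, Finset.mem_erase] at hr
  by_cases h1 : lv r < lv p + ℓ
  · rw [hh.2 p r (Ne.symm hr.2.1) h1, zero_mul]
  · rw [hk.2 r q hr.1 (by omega), mul_zero]

theorem Uni.mul {lv : I → ℕ} (hlv : Function.Injective lv) {ℓ : ℕ} (hl : 0 < ℓ)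
    {h k : Matrix I I D} (hh : Uni lv ℓ h) (hk : Uni lv ℓ k) : Uni lv ℓ (h * k) := by
  refine ⟨fun p => ?_, fun p q hne hlt => ?_⟩
  · rw [IsTri.mul_diag hlv hh.isTri hk.isTri, hh.1, hk.1, one_mul]
  · rw [hh.mul_entry hk (by omega) hne, hh.2 p q hne hlt, hk.2 p q hne hlt, add_zero]

/-- Conjugation multiplies leading entries by quotients of diagonal entries. -/
theorem Uni.conj_entry {lv : I → ℕ} (hlv : Function.Injective lv) {ℓ : ℕ} (hl : 0 < ℓ)
    {g h k : Matrix I I D} (hg : IsTri lv g) (hh : Uni lv ℓ h) (hk : Uni lv ℓ k)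
    (hgh : g * h = k * g) {p q : I} (hpq : lv q = lv p + ℓ) :
    g p p * h p q = k p q * g q q := by
  have hne : p ≠ q := by rintro rfl; omega
  have h1 := congrFun (congrFun hgh p) q
  rw [mul_apply_split g h hne, mul_apply_split k g hne, hh.1, hk.1, one_mul, mul_one,
    Finset.sum_eq_zero, Finset.sum_eq_zero, add_zero, add_zero, add_comm (g p q)] at h1
  · exact add_right_cancel h1
  · intro r hr
    rw [Finset.mem_erase, Finset.mem_erase] at hr
    by_cases h2 : lv r < lv p + ℓ
    · rw [hk.2 p r (Ne.symm hr.2.1) h2, zero_mul]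
    · have h3 : lv r ≠ lv q := fun h => hr.1 (hlv h)
      rw [hg r q (by omega), mul_zero]
  · intro r hr
    rw [Finset.mem_erase, Finset.mem_erase] at hr
    by_cases h2 : lv q < lv r + ℓ
    · rw [hh.2 r q hr.1 h2, mul_zero]
    · have h3 : lv r ≠ lv p := fun h => hr.2.1 (hlv h)
      rw [hg p r (by omega), zero_mul]

/-- The leading entries of two commuting unipotent matrices commute, in the situation where the
middle index is unique. -/
theorem Uni.comm_entry {lv : I → ℕ} (hlv : Function.Injective lv) {ℓ m : ℕ} (hl : 0 < ℓ)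
    (hm : 0 < m) {h k : Matrix I I D} (hh : Uni lv ℓ h) (hk : Uni lv m k)
    (hhk : h * k = k * h) {p q r s : I} (hpq : lv q = lv p + ℓ + m)
    (hr : lv r = lv p + ℓ) (hs : lv s = lv p + m) :
    h p r * k r q = k p s * h s q := by
  have hne : p ≠ q := by rintro rfl; omega
  have hrp : r ≠ p := by rintro rfl; omega
  have hsp : s ≠ p := by rintro rfl; omega
  have hrq : r ≠ q := by rintro rfl; omega
  have hsq : s ≠ q := by rintro rfl; omega
  have h1 := congrFun (congrFun hhk p) q
  rw [mul_apply_split h k hne, mul_apply_split k h hne, hh.1 p, hk.1 q, hk.1 p, hh.1 q,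
    Finset.sum_eq_single r, Finset.sum_eq_single s] at h1
  · simp only [one_mul, mul_one] at h1
    rw [add_comm (k p q)] at h1
    exact add_left_cancel h1
  · intro t ht hts
    rw [Finset.mem_erase, Finset.mem_erase] at ht
    by_cases h2 : lv t < lv p + m
    · rw [hk.2 p t (Ne.symm ht.2.1) h2, zero_mul]
    · have h3 : lv t ≠ lv s := fun h => hts (hlv h)
      rw [hh.2 t q ht.1 (by omega), mul_zero]
  · intro h2
    exact absurd (Finset.mem_erase.2 ⟨hsq, Finset.mem_erase.2 ⟨hsp, Finset.mem_univ s⟩⟩) h2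
  · intro t ht htr
    rw [Finset.mem_erase, Finset.mem_erase] at ht
    by_cases h2 : lv t < lv p + ℓ
    · rw [hh.2 p t (Ne.symm ht.2.1) h2, zero_mul]
    · have h3 : lv t ≠ lv r := fun h => htr (hlv h)
      rw [hk.2 t q ht.1 (by omega), mul_zero]
  · intro h2
    exact absurd (Finset.mem_erase.2 ⟨hrq, Finset.mem_erase.2 ⟨hrp, Finset.mem_univ r⟩⟩) h2

/-- A unipotent upper triangular matrix different from `1` has a leading level. -/
theorem exists_level {lv : I → ℕ} (hlv : Function.Injective lv) {h : Matrix I I D}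
    (htri : IsTri lv h) (hdiag : ∀ p, h p p = 1) (hne : h ≠ 1) :
    ∃ ℓ, 0 < ℓ ∧ Uni lv ℓ h ∧ ∃ p q, lv q = lv p + ℓ ∧ h p q ≠ 0 := by
  classical
  have hex : ∃ ℓ, ∃ p q, p ≠ q ∧ lv q = lv p + ℓ ∧ h p q ≠ 0 := by
    by_contra hcon
    push Not at hcon
    apply hne
    ext p q
    by_cases hpq : p = q
    · subst hpq; rw [hdiag, Matrix.one_apply_eq]
    · rw [Matrix.one_apply_ne hpq]
      by_cases h1 : lv q < lv p
      · exact htri p q h1
      · exact hcon (lv q - lv p) p q hpq (by omega)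
  obtain ⟨p, q, hpq, hl, hnz⟩ := Nat.find_spec hex
  refine ⟨Nat.find hex, ?_, ⟨hdiag, ?_⟩, p, q, hl, hnz⟩
  · rw [pos_iff_ne_zero]
    intro h0
    rw [h0, add_zero] at hl
    exact hpq (hlv hl.symm)
  · intro a b hab hlt
    by_contra hnz'
    by_cases h1 : lv b < lv a
    · exact hnz' (htri a b h1)
    · exact Nat.find_min hex (m := lv b - lv a) (by omega) ⟨a, b, hab, by omega, hnz'⟩

end Pool.Agent.ANM51
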