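import Pool.Agent.ANM51.Defs

/-!
# Constructing homomorphisms `A₁N₁ → A₂N₂`
-/

namespace Pool.Agent.ANM51

open Matrix

set_option linter.unusedSectionVars false

variable {n : ℕ} {D₁ D₂ : Type} [NormedDivisionRing D₁] [NormedAlgebra ℝ D₁]
  [NormedDivisionRing D₂] [NormedAlgebra ℝ D₂] (F : FormData D₂)

/-- The data of a homomorphism `g ↦ [[P g, S g (P g)^{-*}], [0, (P g)^{-*}]]`. -/
structure HomData (n : ℕ) (D₁ : Type) [NormedDivisionRing D₁] [NormedAlgebra ℝ D₁]
    {D₂ : Type} [NormedDivisionRing D₂] [NormedAlgebra ℝ D₂] (F : FormData D₂) where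
  /-- the block `P` -/
  P : ANSL n D₁ → Matrix (Fin n) (Fin n) D₂
  /-- the block `S` -/
  S : ANSL n D₁ → Matrix (Fin n) (Fin n) D₂
  P_one : P 1 = 1
  P_mul : ∀ g h, P (g * h) = P g * P h
  P_tri : ∀ g i j, j < i → P g i j = 0
  P_pos : ∀ g i, ∃ c : ℝ, 0 < c ∧ P g i i = algebraMap ℝ D₂ c
  S_mul : ∀ g h, S (g * h) = S g + P g * S h * ctr F (P g)
  S_sym : ∀ g, ctr F (S g) = F.ε • S g
  P_cont : Continuous P
  S_cont : Continuous S
  ker : ∀ g, P g = 1 → S g = 0 → g = 1

variable {F} (H : HomData n D₁ F)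

/-- the block `(P g)^{-*}` -/
noncomputable def HomData.Q (g : ANSL n D₁) : Matrix (Fin n) (Fin n) D₂ := ctr F (H.P g⁻¹)

/-- the matrix of the image -/
noncomputable def HomData.M (g : ANSL n D₁) : Matrix (Fin n ⊕ Fin n) (Fin n ⊕ Fin n) D₂ :=
  Matrix.fromBlocks (H.P g) (H.S g * H.Q g) 0 (H.Q g)

theorem HomData.P_inv_mul (g : ANSL n D₁) : H.P g⁻¹ * H.P g = 1 := by
  rw [← H.P_mul, inv_mul_cancel, H.P_one]

theorem HomData.P_mul_inv (g : ANSL n D₁) : H.P g * H.P g⁻¹ = 1 := by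
  rw [← H.P_mul, mul_inv_cancel, H.P_one]

theorem HomData.ctrP_mul_Q (g : ANSL n D₁) : ctr F (H.P g) * H.Q g = 1 := by
  rw [HomData.Q, ← ctr_mul, H.P_inv_mul, ctr_one]

theorem HomData.ctrQ_mul_P (g : ANSL n D₁) : ctr F (H.Q g) * H.P g = 1 := by
  rw [HomData.Q, ctr_ctr, H.P_inv_mul]

theorem HomData.Q_mul (g h : ANSL n D₁) : H.Q (g * h) = H.Q g * H.Q h := by
  rw [HomData.Q, _root_.mul_inv_rev, H.P_mul, ctr_mul]; rfl

theorem HomData.Q_one : H.Q 1 = 1 := by
  rw [HomData.Q, inv_one, H.P_one, ctr_one]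

theorem HomData.S_one : H.S 1 = 0 := by
  have h := H.S_mul 1 1
  rw [one_mul, H.P_one, ctr_one, one_mul, mul_one] at h
  exact left_eq_add.1 h

theorem HomData.M_mul (g h : ANSL n D₁) : H.M (g * h) = H.M g * H.M h := by
  rw [HomData.M, HomData.M, HomData.M, Matrix.fromBlocks_multiply, H.P_mul, H.S_mul, H.Q_mul]
  congr 1
  · rw [mul_zero, add_zero]
  · rw [add_mul, add_comm]
    congr 1
    · calc H.P g * H.S h * ctr F (H.P g) * (H.Q g * H.Q h)
          = H.P g * H.S h * (ctr F (H.P g) * H.Q g) * H.Q h := by simp only [mul_assoc]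
        _ = H.P g * (H.S h * H.Q h) := by rw [H.ctrP_mul_Q, mul_one, mul_assoc]
    · rw [mul_assoc]
  · simp
  · rw [zero_mul, zero_add]

theorem HomData.M_one : H.M 1 = 1 := by
  rw [HomData.M, H.P_one, H.Q_one, H.S_one, zero_mul, Matrix.fromBlocks_one]

theorem HomData.M_tri (g : ANSL n D₁) : IsTri (lev n) (H.M g) := by
  rintro (i | i) (j | j) h
  · simp only [lev] at h
    rw [HomData.M, Matrix.fromBlocks_apply₁₁]
    exact H.P_tri g i j h
  · have := i.2; have := j.2
    simp only [lev] at h; omega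
  · rfl
  · have := i.2; have := j.2
    simp only [lev] at h
    rw [HomData.M, Matrix.fromBlocks_apply₂₂, HomData.Q, ctr, H.P_tri _ _ _ (by
      rw [Fin.lt_def]; omega), map_zero]

theorem HomData.M_form (g : ANSL n D₁) :
    ctr F (H.M g) * Jmat F n * H.M g = Jmat F n := by
  have h1 : ctr F (H.M g) = Matrix.fromBlocks (ctr F (H.P g)) 0 (ctr F (H.S g * H.Q g))
      (ctr F (H.Q g)) := by
    ext (i | i) (j | j)
    · rfl
    · simp [ctr, HomData.M]
    · rfl
    · rfl
  rw [h1, HomData.M, Jmat, Matrix.fromBlocks_multiply, Matrix.fromBlocks_multiply]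
  congr 1
  · simp
  · simp only [mul_zero, zero_mul, mul_one, zero_add, add_zero]
    exact H.ctrP_mul_Q g
  · simp only [mul_zero, mul_one, zero_add, add_zero, mul_neg, neg_mul, mul_smul_comm,
      smul_mul_assoc]
    rw [H.ctrQ_mul_P]
  · simp only [mul_zero, mul_one, zero_add, add_zero, mul_neg, neg_mul, mul_smul_comm,
      smul_mul_assoc]
    rw [ctr_mul, H.S_sym, mul_smul_comm, smul_mul_assoc, ← mul_assoc]
    exact neg_add_cancel _

/-- the image as a unit -/
noncomputable def HomData.U (g : ANSL n D₁) : (Matrix (Fin n ⊕ Fin n) (Fin n ⊕ Fin n) D₂)ˣ where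
  val := H.M g
  inv := H.M g⁻¹
  val_inv := by rw [← H.M_mul, mul_inv_cancel, H.M_one]
  inv_val := by rw [← H.M_mul, inv_mul_cancel, H.M_one]

theorem HomData.diag (g : ANSL n D₁) : ∃ c : Fin n ⊕ Fin n → ℝ, DiagIs (H.M g) c := by
  choose c hc using H.P_pos g
  choose d hd using H.P_pos g⁻¹
  refine ⟨Sum.elim c d, ?_⟩
  rintro (i | i)
  · exact ⟨(hc i).1, (hc i).2⟩
  · refine ⟨(hd i).1, ?_⟩
    rw [HomData.M, Matrix.fromBlocks_apply₂₂, HomData.Q, ctr, (hd i).2, F.σ_real]
    rfl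

/-- the homomorphism -/
noncomputable def HomData.hom : ANSL n D₁ →* ANC n F where
  toFun g := ⟨H.U g, ⟨⟨⟨H.M_tri g, H.M_tri g⁻¹⟩, H.M_form g⟩, H.diag g⟩⟩
  map_one' := Subtype.ext (Units.ext H.M_one)
  map_mul' g h := Subtype.ext (Units.ext (H.M_mul g h))

theorem HomData.hom_injective : Function.Injective H.hom := by
  refine (injective_iff_map_eq_one _).2 fun g hg => ?_
  have h1 : H.M g = 1 := congrArg (fun x : ANC n F => x.1.val) hg
  rw [HomData.M, ← Matrix.fromBlocks_one, Matrix.fromBlocks_inj] at h1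
  obtain ⟨hP, hB, -, hQ⟩ := h1
  refine H.ker g hP ?_
  rw [hQ, mul_one] at hB
  exact hB

theorem HomData.M_cont [FiniteDimensional ℝ D₂] : Continuous H.M := by
  have hσ : Continuous F.σ := F.σ.continuous_of_finiteDimensional
  have hctr : Continuous (ctr F : Matrix (Fin n) (Fin n) D₂ → Matrix (Fin n) (Fin n) D₂) := by
    refine continuous_matrix fun i j => ?_
    exact hσ.comp (continuous_id.matrix_elem j i)
  have hQ : Continuous H.Q := hctr.comp (H.P_cont.comp continuous_inv)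
  refine continuous_matrix fun i j => ?_
  rcases i with i | i <;> rcases j with j | j
  · exact H.P_cont.matrix_elem i j
  · exact (H.S_cont.mul hQ).matrix_elem i j
  · exact continuous_const
  · exact hQ.matrix_elem i j

theorem HomData.hom_continuous [FiniteDimensional ℝ D₂] : Continuous H.hom := by
  refine Continuous.subtype_mk ?_ _
  rw [Units.continuous_iff]
  exact ⟨H.M_cont, H.M_cont.comp continuous_inv⟩

end Pool.Agent.ANM51
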