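import Pool.Agent.ANM51.Flat

/-!
# Monomial matrices of signed permutations
-/

namespace Pool.Agent.ANM51

open Matrix Pool.Agent.ANM65

set_option linter.unusedSectionVars false

variable {n : ℕ} {D : Type} [NormedDivisionRing D] [NormedAlgebra ℝ D] (F : FormData D)

/-- the nonzero entries of the monomial matrix of `w` -/
noncomputable def eta (w : Equiv.Perm (Fin n ⊕ Fin n)) : Fin n ⊕ Fin n → ℝ
  | .inl _ => 1
  | .inr i => jc F n (w (.inl i))

theorem jc_sq (a : Fin n ⊕ Fin n) : jc F n a * jc F n a = 1 := by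
  rcases a with i | i
  · rw [jc, mul_one]
  · rw [jc, neg_mul_neg, F.ε_mul_self]

theorem eta_sq (w : Equiv.Perm (Fin n ⊕ Fin n)) (a : Fin n ⊕ Fin n) :
    eta F w a * eta F w a = 1 := by
  rcases a with i | i
  · rw [eta, mul_one]
  · rw [eta, jc_sq]

theorem abs_eta (w : Equiv.Perm (Fin n ⊕ Fin n)) (a : Fin n ⊕ Fin n) : |eta F w a| = 1 := by
  have h := eta_sq F w a
  have h1 : |eta F w a| * |eta F w a| = 1 := by rw [← abs_mul, h, abs_one]
  nlinarith [abs_nonneg (eta F w a)]

/-- monomial matrices: the entry at `(p, w p)` is `c p` -/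
noncomputable def monoM (D : Type) [NormedDivisionRing D] [NormedAlgebra ℝ D]
    (w : Equiv.Perm (Fin n ⊕ Fin n)) (c : Fin n ⊕ Fin n → ℝ) :
    Matrix (Fin n ⊕ Fin n) (Fin n ⊕ Fin n) D :=
  fun p q => if q = w p then algebraMap ℝ D (c p) else 0

theorem monoM_mul_apply (w : Equiv.Perm (Fin n ⊕ Fin n)) (c : Fin n ⊕ Fin n → ℝ)
    (g : Matrix (Fin n ⊕ Fin n) (Fin n ⊕ Fin n) D) (p q : Fin n ⊕ Fin n) :
    (monoM D w c * g) p q = c p • g (w p) q := by
  rw [Matrix.mul_apply, Finset.sum_eq_single (w p)]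
  · rw [monoM, if_pos rfl, Algebra.smul_def]
  · intro r _ hr
    rw [monoM, if_neg hr, zero_mul]
  · intro h; exact absurd (Finset.mem_univ _) h

/-- the monomial matrix as a unit -/
noncomputable def monoU (w : Equiv.Perm (Fin n ⊕ Fin n)) :
    (Matrix (Fin n ⊕ Fin n) (Fin n ⊕ Fin n) D)ˣ where
  val := monoM D w (eta F w)
  inv := monoM D w.symm fun p => eta F w (w.symm p)
  val_inv := by
    ext1 p q
    rw [monoM_mul_apply, monoM, Equiv.symm_apply_apply]
    by_cases h : p = q
    · subst h
      rw [if_pos rfl, Matrix.one_apply_eq, Algebra.smul_def, ← map_mul, eta_sq, map_one]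
    · rw [if_neg (Ne.symm h), smul_zero, Matrix.one_apply_ne h]
  inv_val := by
    ext1 p q
    rw [monoM_mul_apply, monoM, Equiv.apply_symm_apply]
    by_cases h : p = q
    · subst h
      rw [if_pos rfl, Matrix.one_apply_eq, Algebra.smul_def, ← map_mul, eta_sq, map_one]
    · rw [if_neg (Ne.symm h), smul_zero, Matrix.one_apply_ne h]

theorem monoU_val (w : Equiv.Perm (Fin n ⊕ Fin n)) :
    (monoU F w).val = monoM D w (eta F w) := rfl

theorem monoU_mem {w : Equiv.Perm (Fin n ⊕ Fin n)} (hw : ∀ p, w p.swap = (w p).swap) :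
    monoU F w ∈ FormGrp n F := by
  rw [mem_FormGrp, monoU_val]
  have hη : ∀ a, jc F n a * (eta F w a * eta F w a.swap) = jc F n (w a) := by
    intro a
    rcases a with i | i
    · rw [Sum.swap_inl, eta, eta, jc, one_mul, one_mul]
    · rw [Sum.swap_inr, eta, eta, mul_one]
      have h1 : w (.inr i) = (w (.inl i)).swap := by rw [← hw, Sum.swap_inl]
      rw [h1]
      rcases w (.inl i) with j | j
      · rw [Sum.swap_inl, jc, jc, mul_one, jc]
      · rw [Sum.swap_inr, jc, jc, jc, neg_mul_neg, F.ε_mul_self]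
  ext p q
  rw [form_entry F, Jmat_apply, Finset.sum_eq_single (w.symm p)]
  · have h1 : monoM D w (eta F w) (w.symm p) p =
        algebraMap ℝ D (eta F w (w.symm p)) := by
      rw [monoM, if_pos (Equiv.apply_symm_apply w p).symm]
    rw [h1, F.σ_real]
    by_cases h : q = p.swap
    · have h2 : monoM D w (eta F w) (w.symm p).swap q =
          algebraMap ℝ D (eta F w (w.symm p).swap) := by
        rw [monoM, if_pos]
        rw [h, hw, Equiv.apply_symm_apply]
      rw [h2, if_pos h, ← map_mul, ← algebraMap_smul D (jc F n (w.symm p)), smul_eq_mul,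
        ← map_mul, hη, Equiv.apply_symm_apply]
    · rw [if_neg h]
      have h2 : monoM D w (eta F w) (w.symm p).swap q = 0 := by
        rw [monoM, if_neg]
        rw [hw, Equiv.apply_symm_apply]
        exact h
      rw [h2, mul_zero, smul_zero]
  · intro a _ ha
    have h1 : monoM D w (eta F w) a p = 0 := by
      rw [monoM, if_neg]
      intro h
      exact ha (by rw [h, Equiv.symm_apply_apply])
    rw [h1, map_zero, zero_mul, smul_zero]
  · intro h; exact absurd (Finset.mem_univ _) h

theorem monoU_bd (w : Equiv.Perm (Fin n ⊕ Fin n)) : Bd 1 (monoU F w : (Matrix _ _ D)ˣ) := by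
  intro p q
  constructor
  · rw [monoU_val, monoM]
    by_cases h : q = w p
    · rw [if_pos h, norm_algebraMap', Real.norm_eq_abs, abs_eta]
    · rw [if_neg h, norm_zero]; norm_num
  · change ‖monoM D w.symm (fun p => eta F w (w.symm p)) p q‖ ≤ 1
    rw [monoM]
    by_cases h : q = w.symm p
    · rw [if_pos h, norm_algebraMap', Real.norm_eq_abs, abs_eta]
    · rw [if_neg h, norm_zero]; norm_num

/-- conjugation of the torus by monomial matrices -/
theorem bor_monoU {w : Equiv.Perm (Fin n ⊕ Fin n)} {u v : Fin n → ℝ}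
    (h : ∀ p, wl p u = wl (w p) v) :
    bor D u * monoU F w = monoU F w * bor D v := by
  apply Units.ext
  rw [Units.val_mul, Units.val_mul, monoU_val]
  change borM D u * monoM D w (eta F w) = monoM D w (eta F w) * borM D v
  ext1 p q
  rw [borM, Matrix.diagonal_mul, borM, Matrix.mul_diagonal, monoM]
  by_cases hq : q = w p
  · rw [if_pos hq, hq, h, ← map_mul, ← map_mul, mul_comm]
  · rw [if_neg hq, mul_zero, zero_mul]

end Pool.Agent.ANM51
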