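import Pool.Agent.ANM51.Wt

/-!
# Multiplicities
-/

namespace Pool.Agent.ANM51

open Matrix Filter Topology

set_option linter.unusedSectionVars false

/-- The space `{z : σ z = ε z}`: the root space of the long roots `2 e_i`. -/
noncomputable def FormData.L {D : Type} [NormedDivisionRing D] [NormedAlgebra ℝ D]
    (F : FormData D) : Submodule ℝ D :=
  LinearMap.ker (F.σ - F.ε • LinearMap.id)

theorem FormData.mem_L {D : Type} [NormedDivisionRing D] [NormedAlgebra ℝ D]
    (F : FormData D) (z : D) : z ∈ F.L ↔ F.σ z = F.ε • z := by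
  rw [FormData.L, LinearMap.mem_ker, LinearMap.sub_apply, LinearMap.smul_apply, LinearMap.id_apply,
    sub_eq_zero]

variable {n : ℕ} {D₁ D₂ : Type} [NormedDivisionRing D₁] [NormedAlgebra ℝ D₁]
  [NormedDivisionRing D₂] [NormedAlgebra ℝ D₂] {F : FormData D₂}
  (φ : ANSL n D₁ →* ParC n F) (hφ : Continuous φ) (hinj : Function.Injective φ)

include hφ hinj in
theorem uni_all {i j : Fin (n + 1)} (hij : i < j) {x₀ : D₁} {ℓ : ℕ} {p q : Fin n ⊕ Fin n}
    (h : IsLead φ hij x₀ ℓ p q) (x : D₁) : Uni (lev n) ℓ (ev φ (rt hij x)) := by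
  by_cases hx : x = 0
  · rw [hx, rt_zero, ev_one]
    exact ⟨fun p => Matrix.one_apply_eq p, fun p q hne _ => Matrix.one_apply_ne hne⟩
  · obtain ⟨ℓ', p', q', h'⟩ := exists_lead φ hφ hinj hij hx
    have h1 := level_eq (lead_unique φ hφ hinj hij h h') h.2.2.1 h'.2.2.1
    rw [h1]
    exact h'.2.1

include hφ hinj in
theorem lead_entry_ne {i j : Fin (n + 1)} (hij : i < j) {x₀ : D₁} {ℓ : ℕ}
    {p q : Fin n ⊕ Fin n} (h : IsLead φ hij x₀ ℓ p q) {x : D₁} (hx : x ≠ 0) :
    ev φ (rt hij x) p q ≠ 0 := by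
  intro h0
  obtain ⟨ℓ', p', q', h'⟩ := exists_lead φ hφ hinj hij hx
  have hne : p ≠ q := by
    rintro rfl
    have := h.2.2.1; have := h.1
    omega
  rcases wt_sub_eq (lead_unique φ hφ hinj hij h h') hne with ⟨rfl, rfl⟩ | ⟨rfl, rfl⟩
  · exact h'.2.2.2 h0
  · have h1 := lead_partner F h.1 (uni_all φ hφ hinj hij h x) (ev_form φ _) h.2.2.1
    rw [h0, smul_zero, zero_add] at h1
    have h2 := (smul_eq_zero_iff_right (jc_ne_zero F _)).1 h1
    have h3 : ev φ (rt hij x) q.swap p.swap = 0 := by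
      rw [← F.invol (ev φ (rt hij x) q.swap p.swap), h2, map_zero]
    exact h'.2.2.2 h3

include hφ hinj in
/-- The leading entry is an injective real-linear function of the parameter of the root group;
for a long root its values lie in the long root space. -/
theorem lead_linear {i j : Fin (n + 1)} (hij : i < j) {x₀ : D₁} {ℓ : ℕ}
    {p q : Fin n ⊕ Fin n} (h : IsLead φ hij x₀ ℓ p q) :
    ∃ f : D₁ →ₗ[ℝ] D₂, Function.Injective f ∧ (∀ x, f x = ev φ (rt hij x) p q) ∧
      (q = p.swap → ∀ x, f x ∈ F.L) := by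
  have hne : p ≠ q := by
    rintro rfl
    have := h.2.2.1; have := h.1
    omega
  have hl := h.1
  have hlev := h.2.2.1
  have hadd : ∀ x y, ev φ (rt hij (x + y)) p q = ev φ (rt hij x) p q + ev φ (rt hij y) p q := by
    intro x y
    rw [rt_add, ev_mul]
    exact (uni_all φ hφ hinj hij h x).mul_entry (uni_all φ hφ hinj hij h y) (by omega) hne
  have hcont : Continuous fun x : D₁ => ev φ (rt hij x) p q := by
    have h1 : Continuous fun y : D₁ => ev φ (rt hij y) :=
      (ev_continuous φ hφ).comp (continuous_rt hij)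
    exact h1.matrix_elem p q
  let f0 : D₁ →+ D₂ := AddMonoidHom.mk' (fun x => ev φ (rt hij x) p q) hadd
  let f : D₁ →L[ℝ] D₂ := f0.toRealLinearMap hcont
  refine ⟨f, ?_, fun x => rfl, ?_⟩
  · refine (injective_iff_map_eq_zero _).2 fun x hx => ?_
    by_contra hx0
    exact lead_entry_ne φ hφ hinj hij h hx0 hx
  · intro hqp x
    subst hqp
    have h1 := lead_partner F h.1 (uni_all φ hφ hinj hij h x) (ev_form φ _) h.2.2.1
    rw [Sum.swap_swap] at h1
    rw [FormData.mem_L]
    change F.σ (ev φ (rt hij x) p p.swap) = F.ε • ev φ (rt hij x) p p.swap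
    rcases p with a | a
    · rw [Sum.swap_inl, jc, jc, one_smul, neg_smul] at h1
      rw [Sum.swap_inl]
      rw [← sub_eq_zero, ← h1]; abel
    · exfalso
      have := a.2
      rw [Sum.swap_inr, lev, lev] at hlev
      omega

include hφ hinj in
theorem finrank_le (hn : 0 < n) [FiniteDimensional ℝ D₂] :
    Module.finrank ℝ D₁ ≤ Module.finrank ℝ D₂ := by
  have hij : (0 : Fin (n + 1)) < Fin.last n := by
    rw [Fin.lt_def]; simpa using hn
  obtain ⟨ℓ, p, q, h⟩ := exists_lead φ hφ hinj hij (one_ne_zero (α := D₁))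
  obtain ⟨f, hf, -, -⟩ := lead_linear φ hφ hinj hij h
  exact LinearMap.finrank_le_finrank_of_injective hf

include hφ hinj in
theorem lead_short [FiniteDimensional ℝ D₂] (hL : Module.finrank ℝ F.L < Module.finrank ℝ D₁)
    {i j : Fin (n + 1)} (hij : i < j) {x₀ : D₁} {ℓ : ℕ}
    {p q : Fin n ⊕ Fin n} (h : IsLead φ hij x₀ ℓ p q) : q ≠ p.swap := by
  intro hqp
  obtain ⟨f, hf, -, hfL⟩ := lead_linear φ hφ hinj hij h
  let g : D₁ →ₗ[ℝ] F.L := f.codRestrict F.L (hfL hqp)
  have hg : Function.Injective g := by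
    intro x y hxy
    exact hf (congrArg Subtype.val hxy)
  exact absurd (LinearMap.finrank_le_finrank_of_injective hg) (not_le.2 hL)

end Pool.Agent.ANM51
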