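import Mathlib

/-!
# Pairwise intersecting two-element sets: star or triangle
-/

namespace Pool.Agent.ANM51

/-- `n ≥ 2` distinct two-element subsets of an `n`-element set which pairwise intersect exist
only for `n = 3`. -/
theorem star_triangle {n : ℕ} (hn : 2 ≤ n) (S : Fin n → Finset (Fin n))
    (hcard : ∀ i, (S i).card = 2) (hinter : ∀ i j, i ≠ j → (S i ∩ S j).card = 1) : n = 3 := by
  classical
  have hne : ∀ i j, i ≠ j → S i ≠ S j := by
    intro i j hij h
    have := hinter i j hij
    rw [h, Finset.inter_self, hcard] at this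
    omega
  by_cases hc : ∃ c, ∀ i, c ∈ S i
  · exfalso
    obtain ⟨c, hc⟩ := hc
    have h1 : ∀ i, ∃ d, d ≠ c ∧ S i = {c, d} := by
      intro i
      obtain ⟨a, b, hab, hS⟩ := Finset.card_eq_two.1 (hcard i)
      have h2 := hc i
      rw [hS, Finset.mem_insert, Finset.mem_singleton] at h2
      rcases h2 with rfl | rfl
      · exact ⟨b, hab.symm, hS⟩
      · exact ⟨a, hab, by rw [hS, Finset.pair_comm]⟩
    choose d hd1 hd2 using h1
    have hinj : Function.Injective d := by
      intro i j hij
      by_contra h
      exact hne i j h (by rw [hd2 i, hd2 j, hij])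
    have hsurj : Function.Surjective d := Finite.injective_iff_surjective.1 hinj
    obtain ⟨i, hi⟩ := hsurj c
    exact hd1 i hi
  · push Not at hc
    have h01 : (⟨0, by omega⟩ : Fin n) ≠ ⟨1, by omega⟩ := by
      intro h; rw [Fin.ext_iff] at h; simp at h
    set i0 : Fin n := ⟨0, by omega⟩ with hi0
    set i1 : Fin n := ⟨1, by omega⟩ with hi1
    obtain ⟨a, ha⟩ := Finset.card_eq_one.1 (hinter i0 i1 h01)
    have ha0 : a ∈ S i0 ∧ a ∈ S i1 := by
      rw [← Finset.mem_inter, ha]; exact Finset.mem_singleton_self a
    have hpair : ∀ (i : Fin n) (c : Fin n), c ∈ S i → ∃ d, d ≠ c ∧ S i = {c, d} := by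
      intro i c hci
      obtain ⟨a, b, hab, hS⟩ := Finset.card_eq_two.1 (hcard i)
      rw [hS, Finset.mem_insert, Finset.mem_singleton] at hci
      rcases hci with rfl | rfl
      · exact ⟨b, hab.symm, hS⟩
      · exact ⟨a, hab, by rw [hS, Finset.pair_comm]⟩
    obtain ⟨b, hb, hS0⟩ := hpair i0 a ha0.1
    obtain ⟨c, hca, hS1⟩ := hpair i1 a ha0.2
    have hbc : b ≠ c := by
      rintro rfl
      exact hne i0 i1 h01 (by rw [hS0, hS1])
    obtain ⟨k, hk⟩ := hc a
    have hk0 : k ≠ i0 := by rintro rfl; exact hk ha0.1
    have hk1 : k ≠ i1 := by rintro rfl; exact hk ha0.2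
    have hmeet : ∀ i j, i ≠ j → ∃ x, x ∈ S i ∧ x ∈ S j := by
      intro i j hij
      obtain ⟨x, hx⟩ := Finset.card_eq_one.1 (hinter i j hij)
      refine ⟨x, ?_⟩
      rw [← Finset.mem_inter, hx]; exact Finset.mem_singleton_self x
    have hbk : b ∈ S k := by
      obtain ⟨x, hx1, hx2⟩ := hmeet k i0 hk0
      rw [hS0, Finset.mem_insert, Finset.mem_singleton] at hx2
      rcases hx2 with rfl | rfl
      · exact absurd hx1 hk
      · exact hx1
    have hck : c ∈ S k := by
      obtain ⟨x, hx1, hx2⟩ := hmeet k i1 hk1
      rw [hS1, Finset.mem_insert, Finset.mem_singleton] at hx2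
      rcases hx2 with rfl | rfl
      · exact absurd hx1 hk
      · exact hx1
    have hSk : S k = {b, c} := by
      obtain ⟨d, hd, hSk⟩ := hpair k b hbk
      rw [hSk] at hck ⊢
      rw [Finset.mem_insert, Finset.mem_singleton] at hck
      rcases hck with h | h
      · exact absurd h.symm hbc
      · rw [h]
    have hall : ∀ i : Fin n, i ∈ ({i0, i1, k} : Finset (Fin n)) := by
      intro j
      by_contra hj
      simp only [Finset.mem_insert, Finset.mem_singleton, not_or] at hj
      obtain ⟨hj0, hj1, hjk⟩ := hj
      obtain ⟨x, hx1, hx2⟩ := hmeet j i0 hj0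
      obtain ⟨y, hy1, hy2⟩ := hmeet j i1 hj1
      obtain ⟨z, hz1, hz2⟩ := hmeet j k hjk
      rw [hS0, Finset.mem_insert, Finset.mem_singleton] at hx2
      rw [hS1, Finset.mem_insert, Finset.mem_singleton] at hy2
      rw [hSk, Finset.mem_insert, Finset.mem_singleton] at hz2
      have key : ∀ u v : Fin n, u ∈ S j → v ∈ S j → u ≠ v → S j = {u, v} := by
        intro u v hu hv huv
        symm
        apply Finset.eq_of_subset_of_card_le
        · intro w hw
          rw [Finset.mem_insert, Finset.mem_singleton] at hw
          rcases hw with rfl | rfl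
          · exact hu
          · exact hv
        · rw [hcard, Finset.card_pair huv]
      have n0 := hne j i0 hj0
      have n1 := hne j i1 hj1
      have nk := hne j k hjk
      rw [hS0] at n0
      rw [hS1] at n1
      rw [hSk] at nk
      -- `S j` contains two of `a, b, c`
      by_cases haj : a ∈ S j
      · by_cases hbj : b ∈ S j
        · exact n0 (key a b haj hbj hb.symm)
        · by_cases hcj : c ∈ S j
          · exact n1 (key a c haj hcj hca.symm)
          · rcases hz2 with rfl | rfl
            · exact hbj hz1
            · exact hcj hz1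
      · have hbj : b ∈ S j := by
          rcases hx2 with rfl | rfl
          · exact absurd hx1 haj
          · exact hx1
        have hcj : c ∈ S j := by
          rcases hy2 with rfl | rfl
          · exact absurd hy1 haj
          · exact hy1
        exact nk (key b c hbj hcj hbc)
    have hcard3 : ({i0, i1, k} : Finset (Fin n)).card = 3 := by
      rw [Finset.card_insert_of_notMem, Finset.card_pair hk1.symm]
      simp only [Finset.mem_insert, Finset.mem_singleton, not_or]
      exact ⟨h01, hk0.symm⟩
    have huniv : ({i0, i1, k} : Finset (Fin n)) = Finset.univ := by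
      ext i; simp only [Finset.mem_univ, iff_true]; exact hall i
    rw [huniv, Finset.card_univ, Fintype.card_fin] at hcard3
    exact hcard3

end Pool.Agent.ANM51
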