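import Pool.Agent.ANM51.Wt

/-!
# Short root vectors
-/

namespace Pool.Agent.ANM51

variable {n : ℕ}

/-- support of an integer vector -/
def sup (v : Fin n → ℤ) : Finset (Fin n) := Finset.univ.filter fun k => v k ≠ 0

theorem mem_sup {v : Fin n → ℤ} {k : Fin n} : k ∈ sup v ↔ v k ≠ 0 := by
  rw [sup, Finset.mem_filter]; simp

/-- inner product -/
def IP (v w : Fin n → ℤ) : ℤ := ∑ k, v k * w k

theorem IP_sub_left (u v w : Fin n → ℤ) : IP (u - v) w = IP u w - IP v w := by
  simp only [IP, Pi.sub_apply, sub_mul, Finset.sum_sub_distrib]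

theorem IP_sub_right (u v w : Fin n → ℤ) : IP w (u - v) = IP w u - IP w v := by
  simp only [IP, Pi.sub_apply, mul_sub, Finset.sum_sub_distrib]

theorem IP_comm (v w : Fin n → ℤ) : IP v w = IP w v := by
  simp only [IP, mul_comm]

/-- a short root vector `± e_a ± e_b` -/
def Short (v : Fin n → ℤ) : Prop :=
  (∀ k, v k = 0 ∨ v k = 1 ∨ v k = -1) ∧ (sup v).card = 2

theorem Short.IP_self {v : Fin n → ℤ} (hv : Short v) : IP v v = 2 := by
  have h1 : ∀ k, v k * v k = if k ∈ sup v then 1 else 0 := by
    intro k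
    rcases hv.1 k with h | h | h
    · rw [if_neg (by rw [mem_sup]; exact fun h' => h' h), h, mul_zero]
    · rw [if_pos (by rw [mem_sup, h]; norm_num), h]; norm_num
    · rw [if_pos (by rw [mem_sup, h]; norm_num), h]; norm_num
  rw [IP, Finset.sum_congr rfl fun k _ => h1 k, ← Finset.sum_filter]
  simp [hv.2]

theorem Short.IP_parity {v w : Fin n → ℤ} (hv : Short v) (hw : Short w) :
    ((IP v w : ℤ) : ZMod 2) = ((sup v ∩ sup w).card : ZMod 2) := by
  have h1 : ∀ k, ((v k * w k : ℤ) : ZMod 2) = if k ∈ sup v ∩ sup w then 1 else 0 := by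
    intro k
    have hm : (-1 : ZMod 2) = 1 := by decide
    rcases hv.1 k with h | h | h
    · rw [if_neg (by rw [Finset.mem_inter, mem_sup]; exact fun h' => h'.1 h), h, zero_mul,
        Int.cast_zero]
    · rcases hw.1 k with h' | h' | h'
      · rw [if_neg (by rw [Finset.mem_inter, mem_sup, mem_sup]; exact fun h'' => h''.2 h'), h',
          mul_zero, Int.cast_zero]
      · rw [if_pos (by rw [Finset.mem_inter, mem_sup, mem_sup, h, h']; norm_num), h, h']; simp
      · rw [if_pos (by rw [Finset.mem_inter, mem_sup, mem_sup, h, h']; norm_num), h, h']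
        push_cast
        simp [hm]
    · rcases hw.1 k with h' | h' | h'
      · rw [if_neg (by rw [Finset.mem_inter, mem_sup, mem_sup]; exact fun h'' => h''.2 h'), h',
          mul_zero, Int.cast_zero]
      · rw [if_pos (by rw [Finset.mem_inter, mem_sup, mem_sup, h, h']; norm_num), h, h']
        push_cast
        simp [hm]
      · rw [if_pos (by rw [Finset.mem_inter, mem_sup, mem_sup, h, h']; norm_num), h, h']; simp
  rw [IP, Int.cast_sum, Finset.sum_congr rfl fun k _ => h1 k, Finset.sum_ite_mem,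
    Finset.univ_inter]
  simp

theorem Short.inter_card_of_odd {v w : Fin n → ℤ} (hv : Short v) (hw : Short w)
    (h : IP v w = 1) : (sup v ∩ sup w).card = 1 := by
  have h1 := hv.IP_parity hw
  rw [h] at h1
  have h2 : (sup v ∩ sup w).card ≤ 2 := by
    rw [← hv.2]; exact Finset.card_le_card Finset.inter_subset_left
  interval_cases hc : (sup v ∩ sup w).card
  · exact absurd h1 (by decide)
  · rfl
  · exact absurd h1 (by decide)

theorem Short.inter_card_of_zero {v w : Fin n → ℤ} (hv : Short v) (hw : Short w)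
    (h : IP v w = 0) : (sup v ∩ sup w).card ≠ 1 := by
  intro hc
  have h1 := hv.IP_parity hw
  rw [h, hc] at h1
  exact absurd h1 (by decide)

theorem IP_eq_one_of_short {v w : Fin n → ℤ} (hv : Short v) (hw : Short w)
    (hvw : Short (v - w)) : IP v w = 1 := by
  have h := hvw.IP_self
  rw [IP_sub_left, IP_sub_right, IP_sub_right, hv.IP_self, hw.IP_self, IP_comm w v] at h
  omega

theorem ix_ne {p q : Fin n ⊕ Fin n} (hpq : p ≠ q) (hsw : q ≠ p.swap) : ix p ≠ ix q := by
  intro h
  rcases eq_or_swap_of_ix h with h1 | h1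
  · exact hpq h1.symm
  · exact hsw h1

theorem short_wt_sub {p q : Fin n ⊕ Fin n} (hpq : p ≠ q) (hsw : q ≠ p.swap) :
    Short (wt p - wt q) ∧ sup (wt p - wt q) = {ix p, ix q} := by
  have hne := ix_ne hpq hsw
  have h1 : ∀ k, k ≠ ix p → k ≠ ix q → (wt p - wt q) k = 0 := by
    intro k hk1 hk2
    rw [Pi.sub_apply, wt_apply_of_ne hk1, wt_apply_of_ne hk2, sub_zero]
  have h2 : (wt p - wt q) (ix p) = wt p (ix p) := by
    rw [Pi.sub_apply, wt_apply_of_ne (p := q) hne, sub_zero]
  have h3 : (wt p - wt q) (ix q) = - wt q (ix q) := by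
    rw [Pi.sub_apply, wt_apply_of_ne (p := p) hne.symm, zero_sub]
  have hsup : sup (wt p - wt q) = {ix p, ix q} := by
    ext k
    rw [mem_sup, Finset.mem_insert, Finset.mem_singleton]
    constructor
    · intro hk
      by_contra hcon
      push Not at hcon
      exact hk (h1 k hcon.1 hcon.2)
    · rintro (rfl | rfl)
      · rw [h2]; rcases wt_apply_ix p with h | h <;> rw [h] <;> norm_num
      · rw [h3]; rcases wt_apply_ix q with h | h <;> rw [h] <;> norm_num
  refine ⟨⟨fun k => ?_, ?_⟩, hsup⟩
  · by_cases hk1 : k = ix p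
    · rw [hk1, h2]; rcases wt_apply_ix p with h | h <;> rw [h] <;> norm_num
    · by_cases hk2 : k = ix q
      · rw [hk2, h3]; rcases wt_apply_ix q with h | h <;> rw [h] <;> norm_num
      · left; exact h1 k hk1 hk2
  · rw [hsup, Finset.card_pair hne]

end Pool.Agent.ANM51
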