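import Pool.Agent.ANM51.Mult
import Pool.Agent.ANM51.Star
import Pool.Agent.ANM51.Vec

/-!
# Non-existence of injective homomorphisms
-/

namespace Pool.Agent.ANM51

open Matrix Filter Topology

set_option linter.unusedSectionVars false

variable {n : ℕ} {D₁ D₂ : Type} [NormedDivisionRing D₁] [NormedAlgebra ℝ D₁]
  [NormedDivisionRing D₂] [NormedAlgebra ℝ D₂] {F : FormData D₂}
  (φ : ANSL n D₁ →* ParC n F) (hφ : Continuous φ) (hinj : Function.Injective φ)

include hφ hinj in
/-- the partner of a leading position is a leading position -/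
theorem lead_swap {i j : Fin (n + 1)} (hij : i < j) {x : D₁} {ℓ : ℕ}
    {p q : Fin n ⊕ Fin n} (h : IsLead φ hij x ℓ p q) : IsLead φ hij x ℓ q.swap p.swap := by
  obtain ⟨hl, hu, hpq, hnz⟩ := h
  have h1 := lead_partner F hl hu (ev_form φ _) hpq
  refine ⟨hl, hu, ?_, ?_⟩
  · have := lev_swap p; have := lev_swap q
    have := lev_lt (n := n) p; have := lev_lt (n := n) q
    omega
  · intro h0
    rw [h0, map_zero, smul_zero, add_zero] at h1
    exact hnz ((smul_eq_zero_iff_right (jc_ne_zero F _)).1 h1)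

include hφ hinj in
/-- canonical leading positions -/
theorem lead_canon {i j : Fin (n + 1)} (hij : i < j) {x : D₁} {ℓ : ℕ}
    {p q : Fin n ⊕ Fin n} (h : IsLead φ hij x ℓ p q) (hsw : q ≠ p.swap) :
    ∃ a b : Fin n, a < b ∧ ({a, b} : Finset (Fin n)) = {ix p, ix q} ∧
      (IsLead φ hij x ℓ (.inl a) (.inl b) ∨ IsLead φ hij x ℓ (.inl a) (.inr b)) := by
  have h' := lead_swap φ hφ hinj hij h
  have hlev := h.2.2.1
  have hl := h.1
  rcases p with a | a <;> rcases q with b | b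
  · simp only [lev] at hlev
    exact ⟨a, b, by rw [Fin.lt_def]; omega, rfl, Or.inl h⟩
  · have hab : a ≠ b := fun hab => hsw (by rw [hab]; rfl)
    rcases lt_or_gt_of_ne hab with hlt | hlt
    · exact ⟨a, b, hlt, rfl, Or.inr h⟩
    · exact ⟨b, a, hlt, Finset.pair_comm _ _, Or.inr h'⟩
  · exfalso
    have := a.2; have := b.2
    simp only [lev] at hlev
    omega
  · have := a.2; have := b.2
    simp only [lev] at hlev
    exact ⟨b, a, by rw [Fin.lt_def]; omega, Finset.pair_comm _ _, Or.inl h'⟩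

include hφ hinj in
/-- Two commuting root subgroups cannot have the roots `e_a - e_b` and `e_a + e_b` when the
leading entries fill up `D₂`. -/
theorem comm_contra [FiniteDimensional ℝ D₁] [FiniteDimensional ℝ D₂]
    (hfin : Module.finrank ℝ D₁ = Module.finrank ℝ D₂) {z : D₂} (hz : z ≠ 0) (hzL : z ∈ F.L)
    {i j k l : Fin (n + 1)} (hij : i < j) (hkl : k < l)
    (hcomm : ∀ x y : D₁, rt hij x * rt hkl y = rt hkl y * rt hij x)
    {a b : Fin n} (hab : a < b) {x y : D₁} {ℓ m : ℕ}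
    (h1 : IsLead φ hij x ℓ (.inl a) (.inl b)) (h2 : IsLead φ hkl y m (.inl a) (.inr b)) :
    False := by
  obtain ⟨f, hf, hfe, -⟩ := lead_linear φ hφ hinj hij h1
  obtain ⟨g, hg, hge, -⟩ := lead_linear φ hφ hinj hkl h2
  have hfs : Function.Surjective f := (LinearMap.injective_iff_surjective_of_finrank_eq_finrank
    hfin).1 hf
  have hgs : Function.Surjective g := (LinearMap.injective_iff_surjective_of_finrank_eq_finrank
    hfin).1 hg
  obtain ⟨s, hs⟩ := hfs 1
  obtain ⟨t, ht⟩ := hgs z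
  rw [hfe] at hs
  rw [hge] at ht
  have hH := uni_all φ hφ hinj hij h1 s
  have hK := uni_all φ hφ hinj hkl h2 t
  have hl := h1.1
  have hm := h2.1
  have e1 := h1.2.2.1
  have e2 := h2.2.2.1
  have ha := a.2
  have hb := b.2
  rw [Fin.lt_def] at hab
  simp only [lev] at e1 e2
  have hHK : ev φ (rt hij s) * ev φ (rt hkl t) = ev φ (rt hkl t) * ev φ (rt hij s) := by
    rw [← ev_mul, hcomm, ev_mul]
  have hc := Uni.comm_entry (lev_injective n) hl hm hH hK hHK
    (p := .inl a) (q := .inr a) (r := .inl b) (s := .inr b)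
    (by simp only [lev]; omega) (by simp only [lev]; omega) (by simp only [lev]; omega)
  have p1 := lead_partner F hm hK (ev_form φ _) (r := .inl b) (q := .inr a)
    (by simp only [lev]; omega)
  have p2 := lead_partner F hl hH (ev_form φ _) (r := .inr b) (q := .inr a)
    (by simp only [lev]; omega)
  rw [Sum.swap_inl, Sum.swap_inr, jc, jc, one_smul, ht, (F.mem_L z).1 hzL] at p1
  rw [Sum.swap_inr, Sum.swap_inr, jc, jc, one_smul, one_smul, hs, F.σ_one] at p2
  have p3 : ev φ (rt hkl t) (.inl b) (.inr a) = z := by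
    have h3 : F.ε • (ev φ (rt hkl t) (.inl b) (.inr a) - z) = 0 := by
      rw [smul_sub, ← neg_eq_zero, neg_sub, ← p1, neg_smul]; abel
    exact sub_eq_zero.1 ((smul_eq_zero_iff_right F.ε_ne_zero).1 h3)
  have p4 : ev φ (rt hij s) (.inr b) (.inr a) = -1 := by
    exact eq_neg_of_add_eq_zero_left p2
  rw [hs, ht, p3, p4, one_mul, mul_neg, mul_one] at hc
  have h5 : (2 : ℝ) • z = 0 := by
    rw [two_smul]; nth_rewrite 1 [hc]; exact neg_add_cancel z
  exact hz ((smul_eq_zero_iff_right (two_ne_zero)).1 h5)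

/-- chosen leading data -/
theorem lead_vec {i j : Fin (n + 1)} (hij : i < j) (φ : ANSL n D₁ →* ParC n F)
    (hφ : Continuous φ) (hinj : Function.Injective φ) [FiniteDimensional ℝ D₂]
    (hL : Module.finrank ℝ F.L < Module.finrank ℝ D₁) :
    ∃ ℓ p q, IsLead φ hij (1 : D₁) ℓ p q ∧ q ≠ p.swap ∧ p ≠ q := by
  obtain ⟨ℓ, p, q, h⟩ := exists_lead φ hφ hinj hij (one_ne_zero (α := D₁))
  refine ⟨ℓ, p, q, h, lead_short φ hφ hinj hL hij h, ?_⟩
  rintro rfl
  have := h.2.2.1; have := h.1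
  omega

include hφ hinj in
/-- If the long root spaces are too small, then `n = 3`. -/
theorem eq_three_of_short (hn : 2 ≤ n) [FiniteDimensional ℝ D₂]
    (hL : Module.finrank ℝ F.L < Module.finrank ℝ D₁) : n = 3 := by
  have hlt : ∀ i : Fin n, (Fin.castSucc i) < Fin.last n := fun i => Fin.castSucc_lt_last i
  choose ℓ p q hlead hsw hne using fun i : Fin n => lead_vec (hlt i) φ hφ hinj hL
  refine star_triangle hn (fun i => sup (wt (p i) - wt (q i))) (fun i => ?_) ?_
  · exact (short_wt_sub (hne i) (hsw i)).1.2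
  · have key : ∀ i j : Fin n, i < j →
        IP (wt (p i) - wt (q i)) (wt (p j) - wt (q j)) = 1 := by
      intro i j hij
      have hij' : Fin.castSucc i < Fin.castSucc j := by
        rw [Fin.lt_def]; exact hij
      obtain ⟨ℓ', p', q', hlead', hsw', hne'⟩ := lead_vec hij' φ hφ hinj hL
      have hadd := lead_add φ hφ hinj hij' (hlt j) hlead' (hlead j) (hlead i)
      apply IP_eq_one_of_short (short_wt_sub (hne i) (hsw i)).1 (short_wt_sub (hne j) (hsw j)).1
      rw [← hadd, add_sub_cancel_right]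
      exact (short_wt_sub hne' hsw').1
    intro i j hij
    rcases lt_or_gt_of_ne hij with h | h
    · exact (short_wt_sub (hne i) (hsw i)).1.inter_card_of_odd
        (short_wt_sub (hne j) (hsw j)).1 (key i j h)
    · rw [Finset.inter_comm]
      exact (short_wt_sub (hne j) (hsw j)).1.inter_card_of_odd
        (short_wt_sub (hne i) (hsw i)).1 (key j i h)

theorem pair_eq {a b c d : Fin n} (hab : a < b) (hcd : c < d)
    (h : ({a, b} : Finset (Fin n)) = {c, d}) : a = c ∧ b = d := by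
  have h1 : a ∈ ({c, d} : Finset (Fin n)) := by rw [← h]; simp
  have h2 : b ∈ ({c, d} : Finset (Fin n)) := by rw [← h]; simp
  rw [Finset.mem_insert, Finset.mem_singleton] at h1 h2
  rcases h1 with h1 | h1
  · rcases h2 with h2 | h2
    · rw [h1, h2] at hab; exact absurd hab (lt_irrefl _)
    · exact ⟨h1, h2⟩
  · rcases h2 with h2 | h2
    · rw [h1, h2] at hab; exact absurd (hab.trans hcd) (lt_irrefl _)
    · rw [h1, h2] at hab; exact absurd hab (lt_irrefl _)

/-- The remaining case `n = 3` with `dim D₁ = dim D₂`. -/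
theorem no_three (φ : ANSL 3 D₁ →* ParC 3 F) (hφ : Continuous φ) (hinj : Function.Injective φ)
    [FiniteDimensional ℝ D₁] [FiniteDimensional ℝ D₂]
    (hfin : Module.finrank ℝ D₁ = Module.finrank ℝ D₂)
    (hL : Module.finrank ℝ F.L < Module.finrank ℝ D₁) {z : D₂} (hz : z ≠ 0) (hzL : z ∈ F.L) :
    False := by
  have l01 : (0 : Fin (3 + 1)) < 1 := by decide
  have l02 : (0 : Fin (3 + 1)) < 2 := by decide
  have l03 : (0 : Fin (3 + 1)) < 3 := by decide
  have l12 : (1 : Fin (3 + 1)) < 2 := by decide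
  have l13 : (1 : Fin (3 + 1)) < 3 := by decide
  have l23 : (2 : Fin (3 + 1)) < 3 := by decide
  obtain ⟨ℓ₁, p₁, q₁, h01, s01, n01⟩ := lead_vec l01 φ hφ hinj hL
  obtain ⟨ℓ₂, p₂, q₂, h02, s02, n02⟩ := lead_vec l02 φ hφ hinj hL
  obtain ⟨ℓ₃, p₃, q₃, h03, s03, n03⟩ := lead_vec l03 φ hφ hinj hL
  obtain ⟨ℓ₄, p₄, q₄, h12, s12, n12⟩ := lead_vec l12 φ hφ hinj hL
  obtain ⟨ℓ₅, p₅, q₅, h13, s13, n13⟩ := lead_vec l13 φ hφ hinj hL
  obtain ⟨ℓ₆, p₆, q₆, h23, s23, n23⟩ := lead_vec l23 φ hφ hinj hL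
  have a1 := lead_add φ hφ hinj l01 l13 h01 h13 h03
  have a2 := lead_add φ hφ hinj l02 l23 h02 h23 h03
  have a3 := lead_add φ hφ hinj l12 l23 h12 h23 h13
  have S01 := short_wt_sub n01 s01
  have S02 := short_wt_sub n02 s02
  have S03 := short_wt_sub n03 s03
  have S12 := short_wt_sub n12 s12
  have S13 := short_wt_sub n13 s13
  have S23 := short_wt_sub n23 s23
  have i1 : IP (wt p₃ - wt q₃) (wt p₆ - wt q₆) = 1 :=
    IP_eq_one_of_short S03.1 S23.1 (by rw [← a2, add_sub_cancel_right]; exact S02.1)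
  have i2 : IP (wt p₅ - wt q₅) (wt p₆ - wt q₆) = 1 :=
    IP_eq_one_of_short S13.1 S23.1 (by rw [← a3, add_sub_cancel_right]; exact S12.1)
  have i3 : IP (wt p₁ - wt q₁) (wt p₆ - wt q₆) = 0 := by
    have : wt p₁ - wt q₁ = (wt p₃ - wt q₃) - (wt p₅ - wt q₅) := by
      rw [← a1, add_sub_cancel_right]
    rw [this, IP_sub_left, i1, i2, sub_self]
  have c1 := S01.1.inter_card_of_zero S23.1 i3
  have c2 : 1 ≤ (sup (wt p₁ - wt q₁) ∩ sup (wt p₆ - wt q₆)).card := by
    have h1 := Finset.card_union_add_card_inter (sup (wt p₁ - wt q₁)) (sup (wt p₆ - wt q₆))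
    have h2 : (sup (wt p₁ - wt q₁) ∪ sup (wt p₆ - wt q₆)).card ≤ 3 := by
      refine (Finset.card_le_univ _).trans ?_
      rw [Fintype.card_fin]
    rw [S01.1.2, S23.1.2] at h1
    omega
  have c3 : sup (wt p₁ - wt q₁) = sup (wt p₆ - wt q₆) := by
    have h1 : sup (wt p₁ - wt q₁) ∩ sup (wt p₆ - wt q₆) = sup (wt p₁ - wt q₁) :=
      Finset.eq_of_subset_of_card_le Finset.inter_subset_left (by rw [S01.1.2]; omega)
    have h2 : sup (wt p₁ - wt q₁) ∩ sup (wt p₆ - wt q₆) = sup (wt p₆ - wt q₆) :=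
      Finset.eq_of_subset_of_card_le Finset.inter_subset_right (by rw [S23.1.2]; omega)
    rw [← h1, h2]
  obtain ⟨a, b, hab, hS, hcase⟩ := lead_canon φ hφ hinj l01 h01 s01
  obtain ⟨a', b', hab', hS', hcase'⟩ := lead_canon φ hφ hinj l23 h23 s23
  have hpe := pair_eq hab hab' (by rw [hS, hS', ← S01.2, ← S23.2, c3])
  obtain ⟨rfl, rfl⟩ := hpe
  have hcomm : ∀ x y : D₁, rt l01 x * rt l23 y = rt l23 y * rt l01 x :=
    fun x y => rt_comm l01 l23 (by decide) (by decide) x y
  rcases hcase with hc | hc <;> rcases hcase' with hc' | hc'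
  · exact lead_ne φ hφ l01 l23 (Or.inl (by decide)) hc hc' rfl
  · exact comm_contra φ hφ hinj hfin hz hzL l01 l23 hcomm hab hc hc'
  · exact comm_contra φ hφ hinj hfin hz hzL l23 l01 (fun x y => (hcomm y x).symm) hab hc' hc
  · exact lead_ne φ hφ l01 l23 (Or.inl (by decide)) hc hc' rfl

/-- Non-existence, in general form. -/
theorem no_hom (hn : 2 ≤ n) [FiniteDimensional ℝ D₁] [FiniteDimensional ℝ D₂]
    (hcase : Module.finrank ℝ D₂ < Module.finrank ℝ D₁ ∨
      (Module.finrank ℝ F.L < Module.finrank ℝ D₁ ∧ n ≠ 3) ∨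
      (Module.finrank ℝ F.L < Module.finrank ℝ D₁ ∧
        Module.finrank ℝ D₁ = Module.finrank ℝ D₂ ∧ ∃ z ∈ F.L, z ≠ 0)) :
    ¬ ∃ φ : ANSL n D₁ →* ParC n F, Continuous φ ∧ Function.Injective φ := by
  rintro ⟨φ, hφ, hinj⟩
  rcases hcase with h | ⟨h, h3⟩ | ⟨h, hfin, z, hzL, hz⟩
  · exact absurd (finrank_le φ hφ hinj (by omega)) (not_le.2 h)
  · exact h3 (eq_three_of_short φ hφ hinj hn h)
  · have h3 := eq_three_of_short φ hφ hinj hn h
    subst h3
    exact no_three φ hφ hinj hfin h hz hzL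

end Pool.Agent.ANM51
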