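import Pool.Agent.ANM51.Form
import Pool.Agent.ANM51.Dom

/-!
# Injective continuous homomorphisms `A₁N₁ → M₂A₂N₂`: the leading terms
-/

namespace Pool.Agent.ANM51

open Matrix Filter Topology

set_option linter.unusedSectionVars false

variable {n : ℕ} {D₁ D₂ : Type} [NormedDivisionRing D₁] [NormedAlgebra ℝ D₁]
  [NormedDivisionRing D₂] [NormedAlgebra ℝ D₂] {F : FormData D₂}

/-- the matrix of `φ g` -/
noncomputable def ev (φ : ANSL n D₁ →* ParC n F) (g : ANSL n D₁) :
    Matrix (Fin n ⊕ Fin n) (Fin n ⊕ Fin n) D₂ := (φ g).1.val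

variable (φ : ANSL n D₁ →* ParC n F)

theorem ev_mul (g h : ANSL n D₁) : ev φ (g * h) = ev φ g * ev φ h := by
  rw [ev, map_mul]; rfl

theorem ev_one : ev φ 1 = 1 := by
  rw [ev, map_one]; rfl

theorem ev_tri (g : ANSL n D₁) : IsTri (lev n) (ev φ g) := (φ g).2.1.1

theorem ev_form (g : ANSL n D₁) : ctr F (ev φ g) * Jmat F n * ev φ g = Jmat F n := (φ g).2.2

theorem ev_diag_mul (g h : ANSL n D₁) (p : Fin n ⊕ Fin n) :
    ev φ (g * h) p p = ev φ g p p * ev φ h p p := by
  rw [ev_mul, IsTri.mul_diag (lev_injective n) (ev_tri φ g) (ev_tri φ h)]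

theorem ev_diag_ne (g : ANSL n D₁) (p : Fin n ⊕ Fin n) : ev φ g p p ≠ 0 := by
  intro h
  have := norm_diag_partner F (ev_tri φ g) (ev_form φ g) p
  rw [h, norm_zero, zero_mul] at this
  exact zero_ne_one this

theorem ev_injective (hinj : Function.Injective φ) : Function.Injective (ev φ) := by
  intro g h hgh
  exact hinj (Subtype.ext (Units.ext hgh))

theorem ev_continuous (hφ : Continuous φ) : Continuous (ev φ) :=
  Units.continuous_val.comp (continuous_subtype_val.comp hφ)

/-- `T_p(s)`, the logarithm of the norm of the `p`-th diagonal entry of the image of the torus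
element of parameter `s` -/
noncomputable def TT (hφ : Continuous φ) (p : Fin n ⊕ Fin n) :
    (Fin (n + 1) → ℝ) →L[ℝ] ℝ :=
  AddMonoidHom.toRealLinearMap
    { toFun := fun s => Real.log ‖ev φ (tor D₁ s) p p‖
      map_zero' := by
        have h : tor D₁ (0 : Fin (n + 1) → ℝ) = 1 := by
          apply Subtype.ext
          apply Units.ext
          exact torM_zero
        rw [h, ev_one, Matrix.one_apply_eq, norm_one, Real.log_one]
      map_add' := fun s t => by
        rw [tor_add, ev_diag_mul, norm_mul, Real.log_mul]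
        · exact norm_ne_zero_iff.2 (ev_diag_ne φ _ p)
        · exact norm_ne_zero_iff.2 (ev_diag_ne φ _ p) }
    (by
      refine Continuous.log ?_ fun s => norm_ne_zero_iff.2 (ev_diag_ne φ _ p)
      have h1 : Continuous fun s : Fin (n + 1) → ℝ => ev φ (tor D₁ s) :=
        (ev_continuous φ hφ).comp continuous_tor
      exact (h1.matrix_elem p p).norm)

theorem TT_apply (hφ : Continuous φ) (p : Fin n ⊕ Fin n) (s : Fin (n + 1) → ℝ) :
    TT φ hφ p s = Real.log ‖ev φ (tor D₁ s) p p‖ := rfl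

theorem norm_eq_exp_TT (hφ : Continuous φ) (p : Fin n ⊕ Fin n) (s : Fin (n + 1) → ℝ) :
    ‖ev φ (tor D₁ s) p p‖ = Real.exp (TT φ hφ p s) := by
  rw [TT_apply, Real.exp_log (norm_pos_iff.2 (ev_diag_ne φ _ p))]

theorem TT_swap (hφ : Continuous φ) (p : Fin n ⊕ Fin n) (s : Fin (n + 1) → ℝ) :
    TT φ hφ p.swap s = - TT φ hφ p s := by
  have h := norm_diag_partner F (ev_tri φ (tor D₁ s)) (ev_form φ (tor D₁ s)) p
  rw [norm_eq_exp_TT φ hφ, norm_eq_exp_TT φ hφ, ← Real.exp_add, Real.exp_eq_one_iff] at h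
  linarith

/-- torus parameter at which the root `s_i - s_j` takes the value `log 2` -/
noncomputable def s2 (i : Fin (n + 1)) : Fin (n + 1) → ℝ := Pi.single i (Real.log 2)

theorem s2_sub {i j : Fin (n + 1)} (hij : i < j) : (s2 i) i - (s2 i) j = Real.log 2 := by
  rw [s2, Pi.single_eq_same, Pi.single_eq_of_ne (ne_of_gt hij), sub_zero]

theorem tor_rt_two {i j : Fin (n + 1)} (hij : i < j) (x : D₁) :
    tor D₁ (s2 i) * rt hij x = rt hij ((2 : ℝ) • x) * tor D₁ (s2 i) := by
  rw [tor_rt hij, s2_sub hij, Real.exp_log (by norm_num)]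

/-- The image of a root element is unipotent. -/
theorem ev_rt_diag (hφ : Continuous φ) {i j : Fin (n + 1)} (hij : i < j) (x : D₁)
    (p : Fin n ⊕ Fin n) : ev φ (rt hij x) p p = 1 := by
  set d : D₂ := ev φ (tor D₁ (s2 i)) p p with hd
  have hd0 : d ≠ 0 := ev_diag_ne φ _ p
  have key : ∀ y : D₁, ‖ev φ (rt hij y) p p - 1‖ = ‖ev φ (rt hij ((2 : ℝ) • y)) p p - 1‖ := by
    intro y
    have h1 := congrArg (fun g => ev φ g p p) (tor_rt_two hij y)
    simp only [ev_diag_mul] at h1
    have h2 : d * (ev φ (rt hij y) p p - 1) = (ev φ (rt hij ((2 : ℝ) • y)) p p - 1) * d := by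
      rw [mul_sub, sub_mul, mul_one, one_mul]
      exact congrArg (fun z => z - d) h1
    have h3 := congrArg norm h2
    rw [norm_mul, norm_mul, mul_comm] at h3
    exact mul_right_cancel₀ (norm_ne_zero_iff.2 hd0) h3
  have key2 : ∀ k : ℕ, ‖ev φ (rt hij (((2 : ℝ)⁻¹ ^ k) • x)) p p - 1‖ =
      ‖ev φ (rt hij x) p p - 1‖ := by
    intro k
    induction k with
    | zero => rw [pow_zero, one_smul]
    | succ k ih =>
      rw [key, smul_smul, pow_succ', ← mul_assoc, mul_inv_cancel₀ (by norm_num : (2 : ℝ) ≠ 0),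
        one_mul, ih]
  have hcont : Continuous fun y : D₁ => ‖ev φ (rt hij y) p p - 1‖ := by
    have h1 : Continuous fun y : D₁ => ev φ (rt hij y) :=
      (ev_continuous φ hφ).comp (continuous_rt hij)
    exact ((h1.matrix_elem p p).sub continuous_const).norm
  have hlim : Tendsto (fun k : ℕ => ((2 : ℝ)⁻¹ ^ k) • x) atTop (𝓝 0) := by
    have h1 : Tendsto (fun k : ℕ => ((2 : ℝ)⁻¹ ^ k)) atTop (𝓝 0) :=
      tendsto_pow_atTop_nhds_zero_of_lt_one (by norm_num) (by norm_num)
    have h2 := h1.smul_const x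
    rwa [zero_smul] at h2
  have h1 := (hcont.tendsto 0).comp hlim
  have h2 : Tendsto (fun _ : ℕ => ‖ev φ (rt hij x) p p - 1‖) atTop
      (𝓝 ‖ev φ (rt hij (0 : D₁)) p p - 1‖) := by
    refine h1.congr fun k => ?_
    exact key2 k
  have h3 := tendsto_nhds_unique h2 tendsto_const_nhds
  rw [rt_zero, ev_one, Matrix.one_apply_eq, sub_self, norm_zero] at h3
  exact sub_eq_zero.1 (norm_eq_zero.1 h3.symm)

/-- `p, q` is a leading position, of level `ℓ`, of the image of `rt x` -/
def IsLead {i j : Fin (n + 1)} (hij : i < j) (x : D₁) (ℓ : ℕ) (p q : Fin n ⊕ Fin n) : Prop :=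
  0 < ℓ ∧ Uni (lev n) ℓ (ev φ (rt hij x)) ∧ lev n q = lev n p + ℓ ∧ ev φ (rt hij x) p q ≠ 0

theorem exists_lead (hφ : Continuous φ) (hinj : Function.Injective φ) {i j : Fin (n + 1)}
    (hij : i < j) {x : D₁} (hx : x ≠ 0) : ∃ ℓ p q, IsLead φ hij x ℓ p q := by
  have hne : ev φ (rt hij x) ≠ 1 := by
    intro h
    rw [← ev_one φ] at h
    have h2 := ev_injective φ hinj h
    rw [← rt_zero hij] at h2
    exact hx (rt_injective hij h2)
  obtain ⟨ℓ, hl, hu, p, q, hpq, hnz⟩ := exists_level (lev_injective n) (ev_tri φ _)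
    (ev_rt_diag φ hφ hij x) hne
  exact ⟨ℓ, p, q, hl, hu, hpq, hnz⟩

/-- The leading position carries the root: `T_p - T_q = s_i - s_j`. -/
theorem lead_root (hφ : Continuous φ) {i j : Fin (n + 1)} (hij : i < j) {x : D₁} {ℓ : ℕ}
    {p q : Fin n ⊕ Fin n} (h : IsLead φ hij x ℓ p q) (s : Fin (n + 1) → ℝ) :
    TT φ hφ p s - TT φ hφ q s = s i - s j := by
  obtain ⟨hl, hu, hpq, hnz⟩ := h
  have h0 : ∀ t : Fin (n + 1) → ℝ, t i = t j → TT φ hφ p t = TT φ hφ q t := by
    intro t ht
    have h1 := tor_rt hij t x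
    rw [ht, sub_self, Real.exp_zero, one_smul] at h1
    have h2 := congrArg (ev φ) h1
    rw [ev_mul, ev_mul] at h2
    have h3 := Uni.conj_entry (lev_injective n) hl (ev_tri φ (tor D₁ t)) hu hu h2 hpq
    have h4 := congrArg norm h3
    rw [norm_mul, norm_mul, mul_comm] at h4
    have h5 := mul_left_cancel₀ (norm_ne_zero_iff.2 hnz) h4
    rw [norm_eq_exp_TT φ hφ, norm_eq_exp_TT φ hφ] at h5
    exact Real.exp_injective h5
  have h1 : TT φ hφ p (s2 i) = Real.log 2 + TT φ hφ q (s2 i) := by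
    have h2 := congrArg (ev φ) (tor_rt_two hij x)
    rw [two_smul, rt_add, ev_mul, ev_mul, ev_mul] at h2
    have hu2 := hu.mul (lev_injective n) hl hu
    have hne : p ≠ q := by rintro rfl; omega
    have h3 := Uni.conj_entry (lev_injective n) hl (ev_tri φ (tor D₁ (s2 i))) hu hu2 h2 hpq
    rw [hu.mul_entry hu (by omega) hne, ← two_smul ℝ, smul_mul_assoc] at h3
    have h4 := congrArg norm h3
    rw [norm_smul, norm_mul, norm_mul, Real.norm_ofNat,
      mul_comm ‖ev φ (tor D₁ (s2 i)) p p‖, mul_left_comm] at h4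
    have h5 := mul_left_cancel₀ (norm_ne_zero_iff.2 hnz) h4
    rw [norm_eq_exp_TT φ hφ, norm_eq_exp_TT φ hφ] at h5
    have h6 : (2 : ℝ) = Real.exp (Real.log 2) := (Real.exp_log (by norm_num)).symm
    rw [h6, ← Real.exp_add] at h5
    exact Real.exp_injective h5
  have hlog : Real.log 2 ≠ 0 := (Real.log_pos (by norm_num)).ne'
  set c : ℝ := (s i - s j) / Real.log 2 with hc
  have h2 := h0 (s - c • s2 i) (by
    have h3 := s2_sub hij
    simp only [Pi.sub_apply, Pi.smul_apply, smul_eq_mul]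
    have h4 : c * (s2 i i - s2 i j) = s i - s j := by
      rw [h3, hc, div_mul_cancel₀ _ hlog]
    linarith)
  rw [map_sub, map_sub, map_smul, map_smul, smul_eq_mul, smul_eq_mul, h1] at h2
  have h4 : c * Real.log 2 = s i - s j := by rw [hc, div_mul_cancel₀ _ hlog]
  linarith

end Pool.Agent.ANM51
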