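import Pool.Agent.ANM51.Inst

/-!
# The AN-map `SL_4(ℂ) → SO^*(12)`
-/

namespace Pool.Agent.ANM51

open Matrix

open scoped Quaternion

/-- the skew-symmetric matrix of a vector -/
def skw (a : Fin 3 → ℂ) : Matrix (Fin 3) (Fin 3) ℂ :=
  !![0, -a 2, a 1; a 2, 0, -a 0; -a 1, a 0, 0]

theorem skw_add (a b : Fin 3 → ℂ) : skw (a + b) = skw a + skw b := by
  ext i j
  fin_cases i <;> fin_cases j <;> simp [skw] <;> ring

theorem skw_smul (c : ℂ) (a : Fin 3 → ℂ) : skw (c • a) = c • skw a := by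
  ext i j
  fin_cases i <;> fin_cases j <;> simp [skw]

theorem skw_transpose (a : Fin 3 → ℂ) (i j : Fin 3) : skw a j i = - skw a i j := by
  fin_cases i <;> fin_cases j <;> simp [skw]

theorem skw_conj (M : Matrix (Fin 3) (Fin 3) ℂ) (a : Fin 3 → ℂ) :
    M * skw a * Mᵀ = skw (M.adjugateᵀ.mulVec a) := by
  rw [Matrix.adjugate_fin_three]
  ext i j
  fin_cases i <;> fin_cases j <;>
    simp [skw, Matrix.mul_apply, Fin.sum_univ_three, Matrix.mulVec, dotProduct] <;> ring

theorem skw_inj {a : Fin 3 → ℂ} (h : skw a = 0) : a = 0 := by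
  funext i
  have h0 := congrFun (congrFun h 2) 1
  have h1 := congrFun (congrFun h 0) 2
  have h2 := congrFun (congrFun h 1) 0
  fin_cases i
  · simpa [skw] using h0
  · simpa [skw] using h1
  · simpa [skw] using h2

/-- the lower right `3 × 3` block -/
def blk (g : ANSL 3 ℂ) : Matrix (Fin 3) (Fin 3) ℂ := fun i j => g.1.val i.succ j.succ

/-- the vector `w M⁻¹` -/
noncomputable def avec (g : ANSL 3 ℂ) : Fin 3 → ℂ := fun i =>
  -((‖g.1.val 0 0‖ : ℝ) : ℂ) * (g⁻¹).1.val 0 i.succ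

theorem sl_mul_entry' (g h : ANSL 3 ℂ) (i j : Fin 4) :
    (g * h).1.val i j = g.1.val i 0 * h.1.val 0 j +
      ∑ k : Fin 3, g.1.val i k.succ * h.1.val k.succ j := by
  have h1 : (g * h).1.val = g.1.val * h.1.val := rfl
  rw [h1, Matrix.mul_apply, Fin.sum_univ_succ]

theorem blk_mul (g h : ANSL 3 ℂ) : blk (g * h) = blk g * blk h := by
  ext i j
  rw [blk, sl_mul_entry', sl_tri g (Fin.succ_pos i), zero_mul, zero_add, Matrix.mul_apply]
  rfl

theorem blk_one : blk 1 = 1 := by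
  ext i j
  rw [blk, sl_one]
  by_cases h : i = j
  · subst h; rw [Matrix.one_apply_eq, Matrix.one_apply_eq]
  · rw [Matrix.one_apply_ne h, Matrix.one_apply_ne (fun h' => h (Fin.succ_injective _ h'))]

theorem det_blk (g : ANSL 3 ℂ) : ((‖g.1.val 0 0‖ : ℝ) : ℂ) * (blk g).det = 1 := by
  have h1 : (blk g).det = ∏ i, blk g i i := by
    apply Matrix.det_of_isUpperTriangular
    intro i j hij
    exact sl_tri g (Fin.succ_lt_succ_iff.2 hij)
  have h2 : ∀ i : Fin 3, blk g i i = ((‖g.1.val i.succ i.succ‖ : ℝ) : ℂ) := by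
    intro i
    rw [blk]
    nth_rewrite 1 [(sl_diag g i.succ).2]
    rfl
  rw [h1, Finset.prod_congr rfl fun i _ => h2 i, ← Complex.ofReal_prod, ← Complex.ofReal_mul]
  have h3 := sl_prod g
  rw [Fin.prod_univ_succ] at h3
  rw [h3, Complex.ofReal_one]

theorem norm_inv_mul (g : ANSL 3 ℂ) : ‖g.1.val 0 0‖ * ‖(g⁻¹).1.val 0 0‖ = 1 := by
  rw [← sl_mul_diag, mul_inv_cancel, sl_one, Matrix.one_apply_eq, norm_one]

/-- the cocycle property of `avec` -/
theorem avec_mul (g h : ANSL 3 ℂ) : avec (g * h) = avec g +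
    ((‖g.1.val 0 0‖ : ℝ) : ℂ) • (blk g⁻¹)ᵀ.mulVec (avec h) := by
  funext i
  have e1 := norm_inv_mul h
  have e2 : ((‖h.1.val 0 0‖ : ℝ) : ℂ) * (h⁻¹).1.val 0 0 = 1 := by
    rw [(sl_diag h⁻¹ 0).2]
    change ((‖h.1.val 0 0‖ : ℝ) : ℂ) * ((‖(h⁻¹).1.val 0 0‖ : ℝ) : ℂ) = 1
    rw [← Complex.ofReal_mul, e1, Complex.ofReal_one]
  rw [avec, _root_.mul_inv_rev, sl_mul_diag, sl_mul_entry', Complex.ofReal_mul]
  simp only [Pi.add_apply, Pi.smul_apply, smul_eq_mul, Matrix.mulVec, dotProduct,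
    Matrix.transpose_apply, avec, blk, mul_add]
  congr 1
  · calc -(((‖g.1.val 0 0‖ : ℝ) : ℂ) * ((‖h.1.val 0 0‖ : ℝ) : ℂ)) *
          ((h⁻¹).1.val 0 0 * (g⁻¹).1.val 0 i.succ)
        = -((‖g.1.val 0 0‖ : ℝ) : ℂ) * (((‖h.1.val 0 0‖ : ℝ) : ℂ) * (h⁻¹).1.val 0 0) *
          (g⁻¹).1.val 0 i.succ := by ring
      _ = _ := by rw [e2, mul_one]
  · rw [Finset.mul_sum, Finset.mul_sum]
    refine Finset.sum_congr rfl fun k _ => ?_
    ring

theorem skw_blk (g : ANSL 3 ℂ) (a : Fin 3 → ℂ) :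
    (((‖g.1.val 0 0‖ : ℝ) : ℂ) • blk g) * skw a * (((‖g.1.val 0 0‖ : ℝ) : ℂ) • blk g)ᵀ =
      skw (((‖g.1.val 0 0‖ : ℝ) : ℂ) • (blk g⁻¹)ᵀ.mulVec a) := by
  set d : ℂ := ((‖g.1.val 0 0‖ : ℝ) : ℂ) with hd
  have h1 : blk g * blk g⁻¹ = 1 := by rw [← blk_mul, mul_inv_cancel, blk_one]
  have h2 : (blk g).adjugate = (blk g).det • blk g⁻¹ := by
    calc (blk g).adjugate = (blk g).adjugate * (blk g * blk g⁻¹) := by rw [h1, mul_one]
      _ = ((blk g).adjugate * blk g) * blk g⁻¹ := by rw [mul_assoc]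
      _ = (blk g).det • blk g⁻¹ := by rw [Matrix.adjugate_mul, smul_mul_assoc, one_mul]
  have h3 : d * (blk g).det = 1 := det_blk g
  rw [Matrix.transpose_smul, Matrix.smul_mul, Matrix.smul_mul, Matrix.mul_smul, skw_conj, h2,
    Matrix.transpose_smul, Matrix.smul_mulVec, skw_smul, skw_smul, smul_smul, smul_smul]
  congr 1
  rw [mul_assoc, h3, mul_one]

/-- the block `P` -/
noncomputable def soP (g : ANSL 3 ℂ) : Matrix (Fin 3) (Fin 3) ℍ[ℝ] := fun i j =>
  Quaternion.ofComplex ((((‖g.1.val 0 0‖ : ℝ) : ℂ) • blk g) i j)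

/-- the quaternion `j` -/
def qj : ℍ[ℝ] := ⟨0, 0, 1, 0⟩

theorem qj_star (z : ℂ) : qj * star (Quaternion.ofComplex z) = Quaternion.ofComplex z * qj := by
  rw [Quaternion.coe_ofComplex]
  ext <;> simp [qj]

theorem star_mul_qj (z : ℂ) : star (Quaternion.ofComplex z * qj) =
    -(Quaternion.ofComplex z * qj) := by
  rw [Quaternion.coe_ofComplex]
  ext <;> simp [qj]

theorem ofComplex_injective : Function.Injective Quaternion.ofComplex :=
  (Quaternion.ofComplex : ℂ →ₐ[ℝ] ℍ[ℝ]).toRingHom.injective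

/-- the block `S` -/
noncomputable def soS (g : ANSL 3 ℂ) : Matrix (Fin 3) (Fin 3) ℍ[ℝ] := fun i j =>
  Quaternion.ofComplex (skw (avec g) i j) * qj

theorem smul_blk_mul (g h : ANSL 3 ℂ) : (((‖(g * h).1.val 0 0‖ : ℝ) : ℂ) • blk (g * h)) =
    (((‖g.1.val 0 0‖ : ℝ) : ℂ) • blk g) * (((‖h.1.val 0 0‖ : ℝ) : ℂ) • blk h) := by
  rw [blk_mul, sl_mul_diag, Complex.ofReal_mul, Matrix.smul_mul, Matrix.mul_smul, smul_smul]

theorem soP_mul (g h : ANSL 3 ℂ) : soP (g * h) = soP g * soP h := by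
  ext1 i j
  rw [soP, smul_blk_mul, Matrix.mul_apply, map_sum, Matrix.mul_apply]
  refine Finset.sum_congr rfl fun k _ => ?_
  rw [map_mul]; rfl

theorem soP_one : soP 1 = 1 := by
  ext1 i j
  rw [soP, blk_one, sl_one, Matrix.one_apply_eq, norm_one, Complex.ofReal_one, one_smul]
  by_cases h : i = j
  · subst h; rw [Matrix.one_apply_eq, Matrix.one_apply_eq, map_one]
  · rw [Matrix.one_apply_ne h, Matrix.one_apply_ne h, map_zero]

theorem soS_mul (g h : ANSL 3 ℂ) :
    soS (g * h) = soS g + soP g * soS h * ctr formSOs (soP g) := by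
  have h1 : soP g * soS h * ctr formSOs (soP g) = fun i j =>
      Quaternion.ofComplex (((((‖g.1.val 0 0‖ : ℝ) : ℂ) • blk g) * skw (avec h) *
        (((‖g.1.val 0 0‖ : ℝ) : ℂ) • blk g)ᵀ) i j) * qj := by
    ext1 i j
    rw [Matrix.mul_apply, Matrix.mul_apply, map_sum, Finset.sum_mul]
    refine Finset.sum_congr rfl fun l _ => ?_
    have h2 : (soP g * soS h) i l =
        Quaternion.ofComplex (((((‖g.1.val 0 0‖ : ℝ) : ℂ) • blk g) * skw (avec h)) i l) * qj := by
      rw [Matrix.mul_apply, Matrix.mul_apply, map_sum, Finset.sum_mul]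
      refine Finset.sum_congr rfl fun k _ => ?_
      rw [soP, soS, map_mul, mul_assoc]
    have h3 : ctr formSOs (soP g) l j = star (soP g j l) := rfl
    rw [h2, h3, soP, mul_assoc, qj_star, ← mul_assoc, map_mul]
    rfl
  ext1 i j
  rw [Matrix.add_apply, h1, skw_blk]
  rw [soS, soS, avec_mul, skw_add, Matrix.add_apply, map_add, add_mul]

theorem soS_sym (g : ANSL 3 ℂ) : ctr formSOs (soS g) = formSOs.ε • soS g := by
  ext1 i j
  have h3 : ctr formSOs (soS g) i j = star (soS g j i) := rfl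
  have h4 : (formSOs.ε • soS g) i j = (1 : ℝ) • soS g i j := rfl
  rw [h3, h4, one_smul, soS, soS, star_mul_qj, skw_transpose (avec g) i j, map_neg, neg_mul,
    neg_neg]

theorem blk_tri (g : ANSL 3 ℂ) {i j : Fin 3} (h : j < i) : blk g i j = 0 :=
  sl_tri g (Fin.succ_lt_succ_iff.2 h)

theorem so_cont_blk : Continuous (blk : ANSL 3 ℂ → Matrix (Fin 3) (Fin 3) ℂ) :=
  continuous_matrix fun i j => sl_cont i.succ j.succ

theorem ofComplex_cont : Continuous (Quaternion.ofComplex : ℂ → ℍ[ℝ]) :=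
  (Quaternion.ofComplex : ℂ →ₐ[ℝ] ℍ[ℝ]).toLinearMap.continuous_of_finiteDimensional

theorem so_norm_cont : Continuous fun g : ANSL 3 ℂ => ((‖g.1.val 0 0‖ : ℝ) : ℂ) :=
  Complex.continuous_ofReal.comp (sl_cont 0 0).norm

theorem soP_cont : Continuous soP := by
  refine continuous_matrix fun i j => ?_
  exact ofComplex_cont.comp (so_norm_cont.smul (so_cont_blk.matrix_elem i j))

theorem avec_cont (i : Fin 3) : Continuous fun g : ANSL 3 ℂ => avec g i := by
  refine so_norm_cont.neg.mul ?_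
  exact (sl_cont 0 i.succ).comp continuous_inv

theorem skw_cont (i j : Fin 3) : Continuous fun g : ANSL 3 ℂ => skw (avec g) i j := by
  fin_cases i <;> fin_cases j
  · exact continuous_const
  · exact (avec_cont 2).neg
  · exact avec_cont 1
  · exact avec_cont 2
  · exact continuous_const
  · exact (avec_cont 0).neg
  · exact (avec_cont 1).neg
  · exact avec_cont 0
  · exact continuous_const

theorem soS_cont : Continuous soS := by
  refine continuous_matrix fun i j => ?_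
  exact (ofComplex_cont.comp (skw_cont i j)).mul continuous_const

theorem so_ker (g : ANSL 3 ℂ) (hP : soP g = 1) (hS : soS g = 0) : g = 1 := by
  have hd := (sl_diag g 0).1
  set d : ℂ := ((‖g.1.val 0 0‖ : ℝ) : ℂ) with hdd
  have hd0 : d ≠ 0 := Complex.ofReal_ne_zero.2 hd.ne'
  have hM : d • blk g = 1 := by
    ext1 i j
    have h1 := congrFun (congrFun hP i) j
    apply ofComplex_injective
    rw [soP] at h1
    rw [h1]
    by_cases h : i = j
    · subst h; rw [Matrix.one_apply_eq, Matrix.one_apply_eq, map_one]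
    · rw [Matrix.one_apply_ne h, Matrix.one_apply_ne h, map_zero]
  have hdet : d * (blk g).det = 1 := det_blk g
  have hd3 : d ^ 3 * (blk g).det = 1 := by
    have h1 := congrArg Matrix.det hM
    rw [Matrix.det_smul, Fintype.card_fin, Matrix.det_one] at h1
    exact h1
  have hd2 : d ^ 2 = 1 := by
    calc d ^ 2 = d ^ 2 * (d * (blk g).det) := by rw [hdet, mul_one]
      _ = d ^ 3 * (blk g).det := by ring
      _ = 1 := hd3
  have hd1 : d = 1 := by
    have h1 : ‖g.1.val 0 0‖ ^ 2 = 1 := by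
      have h2 : ((‖g.1.val 0 0‖ ^ 2 : ℝ) : ℂ) = ((1 : ℝ) : ℂ) := by
        push_cast
        exact hd2
      exact Complex.ofReal_injective h2
    have h3 : ‖g.1.val 0 0‖ = 1 := (pow_eq_one_iff_of_nonneg hd.le (by norm_num)).1 h1
    rw [hdd, h3, Complex.ofReal_one]
  rw [hd1, one_smul] at hM
  have ha : avec g = 0 := by
    apply skw_inj
    ext1 i j
    have h1 := congrFun (congrFun hS i) j
    rw [soS, Matrix.zero_apply] at h1
    have hq : qj ≠ 0 := by
      intro h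
      have := congrArg (fun q : ℍ[ℝ] => q.imJ) h
      simp [qj] at this
    have h2 := (mul_eq_zero_iff_right hq).1 h1
    apply ofComplex_injective
    rw [h2, Matrix.zero_apply, map_zero]
  have hinv : ∀ i : Fin 3, (g⁻¹).1.val 0 i.succ = 0 := by
    intro i
    have h1 := congrFun ha i
    rw [avec, Pi.zero_apply] at h1
    rcases mul_eq_zero.1 h1 with h2 | h2
    · exact absurd (neg_eq_zero.1 h2) hd0
    · exact h2
  have hfirst : ∀ i : Fin 3, g.1.val 0 i.succ = 0 := by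
    intro i
    have h1 : (g⁻¹ * g).1.val 0 i.succ = 0 := by
      rw [inv_mul_cancel, sl_one, Matrix.one_apply_ne (Fin.succ_ne_zero i).symm]
    rw [sl_mul_entry'] at h1
    simp only [hinv, zero_mul, Finset.sum_const_zero, add_zero] at h1
    rcases mul_eq_zero.1 h1 with h2 | h2
    · have h3 := (sl_diag g⁻¹ 0).1
      rw [h2, norm_zero] at h3
      exact absurd h3 (lt_irrefl _)
    · exact h2
  apply Subtype.ext
  apply Units.ext
  ext1 i j
  change g.1.val i j = (1 : Matrix (Fin 4) (Fin 4) ℂ) i j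
  refine Fin.cases ?_ (fun i => ?_) i
  · refine Fin.cases ?_ (fun j => ?_) j
    · rw [Matrix.one_apply_eq, (sl_diag g 0).2]
      exact hd1
    · rw [Matrix.one_apply_ne (Fin.succ_ne_zero j).symm]
      exact hfirst j
  · refine Fin.cases ?_ (fun j => ?_) j
    · rw [Matrix.one_apply_ne (Fin.succ_ne_zero i)]
      exact sl_tri g (Fin.succ_pos i)
    · have h1 := congrFun (congrFun hM i) j
      rw [blk] at h1
      rw [h1]
      by_cases h : i = j
      · subst h; rw [Matrix.one_apply_eq, Matrix.one_apply_eq]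
      · rw [Matrix.one_apply_ne h, Matrix.one_apply_ne (fun h' => h (Fin.succ_injective _ h'))]

/-- the AN-map `SL_4(ℂ) → SO^*(12)` -/
noncomputable def soData : HomData 3 ℂ formSOs where
  P := soP
  S := soS
  P_one := soP_one
  P_mul := soP_mul
  P_tri := fun g i j h => by
    rw [soP, Matrix.smul_apply, blk_tri g h, smul_zero, map_zero]
  P_pos := fun g i => by
    refine ⟨‖g.1.val 0 0‖ * ‖g.1.val i.succ i.succ‖, mul_pos (sl_diag g _).1 (sl_diag g _).1, ?_⟩
    have h1 : (((‖g.1.val 0 0‖ : ℝ) : ℂ) • blk g) i i =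
        ((‖g.1.val 0 0‖ * ‖g.1.val i.succ i.succ‖ : ℝ) : ℂ) := by
      have h2 : blk g i i = ((‖g.1.val i.succ i.succ‖ : ℝ) : ℂ) := (sl_diag g i.succ).2
      rw [Matrix.smul_apply, h2, smul_eq_mul, Complex.ofReal_mul]
    rw [soP, h1]
    rfl
  S_mul := soS_mul
  S_sym := soS_sym
  P_cont := soP_cont
  S_cont := soS_cont
  ker := so_ker

end Pool.Agent.ANM51
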