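import Pool.Agent.ANM51.Root

/-!
# Weights of positions, and the root attached to a root subgroup
-/

namespace Pool.Agent.ANM51

open Matrix Filter Topology

set_option linter.unusedSectionVars false

section wt

variable {n : ℕ}

/-- the weight of an index: `e_i` for `i`, `-e_i` for `i'` -/
def wt : Fin n ⊕ Fin n → Fin n → ℤ
  | .inl i => Pi.single i 1
  | .inr i => - Pi.single i 1

/-- the underlying index in `Fin n` -/
def ix : Fin n ⊕ Fin n → Fin n
  | .inl i => i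
  | .inr i => i

theorem wt_swap (p : Fin n ⊕ Fin n) : wt p.swap = - wt p := by
  rcases p with i | i
  · rfl
  · rw [Sum.swap_inr, wt, wt, neg_neg]

theorem ix_swap (p : Fin n ⊕ Fin n) : ix p.swap = ix p := by
  rcases p with i | i <;> rfl

theorem wt_apply_of_ne {p : Fin n ⊕ Fin n} {k : Fin n} (h : k ≠ ix p) : wt p k = 0 := by
  rcases p with i | i
  · rw [wt, Pi.single_eq_of_ne]; exact h
  · rw [wt, Pi.neg_apply, Pi.single_eq_of_ne, neg_zero]; exact h

theorem wt_apply_ix (p : Fin n ⊕ Fin n) : wt p (ix p) = 1 ∨ wt p (ix p) = -1 := by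
  rcases p with i | i
  · left; rw [wt, ix, Pi.single_eq_same]
  · right; rw [wt, ix, Pi.neg_apply, Pi.single_eq_same]

theorem eq_or_swap_of_ix {p q : Fin n ⊕ Fin n} (h : ix p = ix q) : q = p ∨ q = p.swap := by
  rcases p with i | i <;> rcases q with j | j
  · left; exact congrArg _ h.symm
  · right; exact congrArg _ h.symm
  · right; exact congrArg _ h.symm
  · left; exact congrArg _ h.symm

/-- the pairing of two weights -/
def pr (p q : Fin n ⊕ Fin n) : ℤ := ∑ k, wt p k * wt q k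

theorem pr_self (p : Fin n ⊕ Fin n) : pr p p = 1 := by
  rw [pr, Finset.sum_eq_single (ix p)]
  · rcases wt_apply_ix p with h | h <;> rw [h] <;> norm_num
  · intro k _ hk
    rw [wt_apply_of_ne hk, zero_mul]
  · intro h; exact absurd (Finset.mem_univ _) h

theorem pr_swap (p q : Fin n ⊕ Fin n) : pr p q.swap = - pr p q := by
  rw [pr, pr, wt_swap, ← Finset.sum_neg_distrib]
  refine Finset.sum_congr rfl fun k _ => ?_
  rw [Pi.neg_apply, mul_neg]

theorem pr_of_ix_ne {p q : Fin n ⊕ Fin n} (h : ix p ≠ ix q) : pr p q = 0 := by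
  rw [pr]
  refine Finset.sum_eq_zero fun k _ => ?_
  by_cases h1 : k = ix p
  · rw [wt_apply_of_ne (p := q), mul_zero]
    rw [h1]; exact h
  · rw [wt_apply_of_ne h1, zero_mul]

theorem pr_ge {p q : Fin n ⊕ Fin n} (h : q ≠ p.swap) : 0 ≤ pr p q := by
  by_cases h1 : ix p = ix q
  · rcases eq_or_swap_of_ix h1 with h2 | h2
    · rw [h2, pr_self]; norm_num
    · exact absurd h2 h
  · rw [pr_of_ix_ne h1]

theorem eq_of_pr_pos {p q : Fin n ⊕ Fin n} (h : 0 < pr p q) : q = p := by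
  by_cases h1 : ix p = ix q
  · rcases eq_or_swap_of_ix h1 with h2 | h2
    · exact h2
    · rw [h2, pr_swap, pr_self] at h; omega
  · rw [pr_of_ix_ne h1] at h; omega

theorem pr_le_one (p q : Fin n ⊕ Fin n) : pr p q ≤ 1 := by
  by_cases h : 0 < pr p q
  · rw [eq_of_pr_pos h, pr_self]
  · omega

theorem wt_injective : Function.Injective (wt : Fin n ⊕ Fin n → Fin n → ℤ) := by
  intro p q h
  have h1 : pr p q = pr p p := by rw [pr, pr, h]
  have := eq_of_pr_pos (p := p) (q := q) (by rw [h1, pr_self]; norm_num)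
  exact this.symm

theorem wt_add_eq {p s p' s' : Fin n ⊕ Fin n} (h : wt p + wt s = wt p' + wt s')
    (hs : s ≠ p.swap) : (p' = p ∧ s' = s) ∨ (p' = s ∧ s' = p) := by
  have h1 : pr p p + pr p s = pr p p' + pr p s' := by
    simp only [pr, ← Finset.sum_add_distrib, ← mul_add]
    refine Finset.sum_congr rfl fun k _ => ?_
    have := congrFun h k
    simp only [Pi.add_apply] at this
    rw [this]
  rw [pr_self] at h1
  have h2 := pr_ge hs
  have h3 : 0 < pr p p' ∨ 0 < pr p s' := by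
    by_contra hcon
    push Not at hcon
    omega
  rcases h3 with h3 | h3
  · left
    have h4 := eq_of_pr_pos h3
    refine ⟨h4, ?_⟩
    rw [h4] at h
    exact (wt_injective (add_left_cancel h)).symm
  · right
    have h4 := eq_of_pr_pos h3
    refine ⟨?_, h4⟩
    rw [h4, add_comm (wt p')] at h
    exact (wt_injective (add_left_cancel h)).symm

theorem wt_sub_eq {p q p' q' : Fin n ⊕ Fin n} (h : wt p - wt q = wt p' - wt q') (hpq : p ≠ q) :
    (p' = p ∧ q' = q) ∨ (p' = q.swap ∧ q' = p.swap) := by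
  have h1 : wt p + wt q.swap = wt p' + wt q'.swap := by
    rw [wt_swap, wt_swap, ← sub_eq_add_neg, ← sub_eq_add_neg, h]
  have h2 : q.swap ≠ p.swap := fun h3 => hpq (by
    have := congrArg Sum.swap h3
    rw [Sum.swap_swap, Sum.swap_swap] at this
    exact this.symm)
  rcases wt_add_eq h1 h2 with ⟨h3, h4⟩ | ⟨h3, h4⟩
  · left
    refine ⟨h3, ?_⟩
    have := congrArg Sum.swap h4
    rwa [Sum.swap_swap, Sum.swap_swap] at this
  · right
    refine ⟨h3, ?_⟩
    rw [← h4, Sum.swap_swap]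

/-- the height of a vector -/
def ht (v : Fin n → ℤ) : ℤ := ∑ k, v k * (2 * n - 1 - 2 * (k : ℕ))

theorem ht_wt (p : Fin n ⊕ Fin n) : ht (wt p) = 2 * n - 1 - 2 * (lev n p : ℤ) := by
  rw [ht, Finset.sum_eq_single (ix p)]
  · rcases p with i | i
    · rw [wt, ix, Pi.single_eq_same, lev]; ring
    · have := i.2
      rw [wt, ix, Pi.neg_apply, Pi.single_eq_same, lev]
      push_cast [show (i : ℕ) ≤ 2 * n - 1 by omega, show 1 ≤ 2 * n by omega]
      ring
  · intro k _ hk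
    rw [wt_apply_of_ne hk, zero_mul]
  · intro h; exact absurd (Finset.mem_univ _) h

theorem ht_sub (v w : Fin n → ℤ) : ht (v - w) = ht v - ht w := by
  simp only [ht, Pi.sub_apply, sub_mul, Finset.sum_sub_distrib]

theorem level_eq {p q p' q' : Fin n ⊕ Fin n} (h : wt p - wt q = wt p' - wt q') {ℓ ℓ' : ℕ}
    (h1 : lev n q = lev n p + ℓ) (h2 : lev n q' = lev n p' + ℓ') : ℓ = ℓ' := by
  have h3 := congrArg ht h
  rw [ht_sub, ht_sub, ht_wt, ht_wt, ht_wt, ht_wt, h1, h2] at h3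
  push_cast at h3
  omega

end wt

variable {n : ℕ} {D₁ D₂ : Type} [NormedDivisionRing D₁] [NormedAlgebra ℝ D₁]
  [NormedDivisionRing D₂] [NormedAlgebra ℝ D₂] {F : FormData D₂}
  (φ : ANSL n D₁ →* ParC n F) (hφ : Continuous φ)

theorem TT_wt (p : Fin n ⊕ Fin n) (s : Fin (n + 1) → ℝ) :
    TT φ hφ p s = ∑ k, (wt p k : ℝ) * TT φ hφ (.inl k) s := by
  rw [Finset.sum_eq_single (ix p)]
  · rcases p with i | i
    · rw [wt, ix, Pi.single_eq_same]; simp
    · rw [wt, ix, Pi.neg_apply, Pi.single_eq_same]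
      have h := TT_swap φ hφ (.inl i) s
      rw [Sum.swap_inl] at h
      rw [h]; simp
  · intro k _ hk
    rw [wt_apply_of_ne hk, Int.cast_zero, zero_mul]
  · intro h; exact absurd (Finset.mem_univ _) h

theorem TT_sub_wt (p q : Fin n ⊕ Fin n) (s : Fin (n + 1) → ℝ) :
    TT φ hφ p s - TT φ hφ q s = ∑ k, ((wt p - wt q) k : ℝ) * TT φ hφ (.inl k) s := by
  rw [TT_wt, TT_wt φ hφ q, ← Finset.sum_sub_distrib]
  refine Finset.sum_congr rfl fun k _ => ?_
  rw [Pi.sub_apply]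
  push_cast
  ring

theorem TT_indep (hinj : Function.Injective φ) (c : Fin n → ℤ)
    (h : ∀ s, ∑ k, (c k : ℝ) * TT φ hφ (.inl k) s = 0) : c = 0 := by
  have hlt : ∀ i : Fin n, (Fin.castSucc i) < Fin.last n := fun i => Fin.castSucc_lt_last i
  have hex : ∀ i : Fin n, ∃ v : Fin n → ℤ, ∀ s, ∑ k, (v k : ℝ) * TT φ hφ (.inl k) s =
      s (Fin.castSucc i) - s (Fin.last n) := by
    intro i
    obtain ⟨ℓ, p, q, hL⟩ := exists_lead φ hφ hinj (hlt i) (one_ne_zero (α := D₁))
    exact ⟨wt p - wt q, fun s => by rw [← TT_sub_wt, lead_root φ hφ (hlt i) hL]⟩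
  choose v hv using hex
  let Δ : (Fin (n + 1) → ℝ) →ₗ[ℝ] (Fin n → ℝ) :=
    LinearMap.pi fun k => (TT φ hφ (.inl k) : (Fin (n + 1) → ℝ) →ₗ[ℝ] ℝ)
  let V : (Fin n → ℝ) →ₗ[ℝ] (Fin n → ℝ) :=
    LinearMap.pi fun i => ∑ k, (v i k : ℝ) • LinearMap.proj k
  have hVΔ : ∀ s i, V (Δ s) i = s (Fin.castSucc i) - s (Fin.last n) := by
    intro s i
    rw [← hv i s]
    simp only [V, Δ, LinearMap.pi_apply, LinearMap.sum_apply, LinearMap.smul_apply,
      LinearMap.proj_apply, smul_eq_mul]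
    rfl
  have hsurj : Function.Surjective V := by
    intro y
    refine ⟨Δ (Fin.snoc (α := fun _ => ℝ) y 0), ?_⟩
    funext i
    rw [hVΔ, Fin.snoc_castSucc, Fin.snoc_last, sub_zero]
  have hVinj : Function.Injective V := LinearMap.injective_iff_surjective.2 hsurj
  have hΔ : Function.Surjective Δ := by
    intro y
    refine ⟨Fin.snoc (α := fun _ => ℝ) (V y) 0, hVinj ?_⟩
    funext i
    rw [hVΔ, Fin.snoc_castSucc, Fin.snoc_last, sub_zero]
  funext k
  obtain ⟨s, hs⟩ := hΔ (Pi.single k 1)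
  have h1 := h s
  have h2 : ∀ l, TT φ hφ (.inl l) s = (Pi.single k 1 : Fin n → ℝ) l := fun l => congrFun hs l
  simp only [h2] at h1
  rw [Finset.sum_eq_single k] at h1
  · rw [Pi.single_eq_same, mul_one] at h1
    exact_mod_cast h1
  · intro l _ hl
    rw [Pi.single_eq_of_ne hl, mul_zero]
  · intro h; exact absurd (Finset.mem_univ _) h

include hφ in
/-- leading positions of the same root subgroup have the same root vector -/
theorem lead_unique (hinj : Function.Injective φ) {i j : Fin (n + 1)} (hij : i < j)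
    {x x' : D₁} {ℓ ℓ' : ℕ} {p q p' q' : Fin n ⊕ Fin n} (h : IsLead φ hij x ℓ p q)
    (h' : IsLead φ hij x' ℓ' p' q') : wt p - wt q = wt p' - wt q' := by
  have h1 : ∀ s, ∑ k, (((wt p - wt q) - (wt p' - wt q')) k : ℝ) * TT φ hφ (.inl k) s = 0 := by
    intro s
    have h2 := lead_root φ hφ hij h s
    have h3 := lead_root φ hφ hij h' s
    rw [TT_sub_wt] at h2 h3
    have h4 := h2.trans h3.symm
    rw [← sub_eq_zero, ← Finset.sum_sub_distrib] at h4
    rw [← h4]
    refine Finset.sum_congr rfl fun k _ => ?_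
    simp only [Pi.sub_apply]
    push_cast
    ring
  exact sub_eq_zero.1 (TT_indep φ hφ hinj _ h1)

include hφ in
/-- root vectors add up -/
theorem lead_add (hinj : Function.Injective φ) {i j k : Fin (n + 1)} (hij : i < j) (hjk : j < k)
    {x y z : D₁} {ℓ₁ ℓ₂ ℓ₃ : ℕ} {p₁ q₁ p₂ q₂ p₃ q₃ : Fin n ⊕ Fin n}
    (h₁ : IsLead φ hij x ℓ₁ p₁ q₁) (h₂ : IsLead φ hjk y ℓ₂ p₂ q₂)
    (h₃ : IsLead φ (hij.trans hjk) z ℓ₃ p₃ q₃) :
    (wt p₁ - wt q₁) + (wt p₂ - wt q₂) = wt p₃ - wt q₃ := by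
  have h1 : ∀ s, ∑ k, ((((wt p₁ - wt q₁) + (wt p₂ - wt q₂)) - (wt p₃ - wt q₃)) k : ℝ) *
      TT φ hφ (.inl k) s = 0 := by
    intro s
    have e1 := lead_root φ hφ hij h₁ s
    have e2 := lead_root φ hφ hjk h₂ s
    have e3 := lead_root φ hφ (hij.trans hjk) h₃ s
    rw [TT_sub_wt] at e1 e2 e3
    have h4 : (∑ k, ((wt p₁ - wt q₁) k : ℝ) * TT φ hφ (.inl k) s) +
        (∑ k, ((wt p₂ - wt q₂) k : ℝ) * TT φ hφ (.inl k) s) -
        (∑ k, ((wt p₃ - wt q₃) k : ℝ) * TT φ hφ (.inl k) s) = 0 := by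
      rw [e1, e2, e3]; ring
    rw [← Finset.sum_add_distrib, ← Finset.sum_sub_distrib] at h4
    rw [← h4]
    refine Finset.sum_congr rfl fun k _ => ?_
    simp only [Pi.sub_apply, Pi.add_apply]
    push_cast
    ring
  exact sub_eq_zero.1 (TT_indep φ hφ hinj _ h1)

include hφ in
/-- different root subgroups have different root vectors -/
theorem lead_ne {i j k l : Fin (n + 1)} (hij : i < j) (hkl : k < l)
    (hne : i ≠ k ∨ j ≠ l)
    {x y : D₁} {ℓ₁ ℓ₂ : ℕ} {p₁ q₁ p₂ q₂ : Fin n ⊕ Fin n}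
    (h₁ : IsLead φ hij x ℓ₁ p₁ q₁) (h₂ : IsLead φ hkl y ℓ₂ p₂ q₂) :
    (wt p₁ - wt q₁) ≠ (wt p₂ - wt q₂) := by
  intro h
  have h1 : ∀ s : Fin (n + 1) → ℝ, s i - s j = s k - s l := by
    intro s
    rw [← lead_root φ hφ hij h₁ s, ← lead_root φ hφ hkl h₂ s, TT_sub_wt, TT_sub_wt, h]
  rcases hne with hne | hne
  · have h2 := h1 (Pi.single i 1)
    have h3 := h1 (Pi.single k 1)
    rw [Pi.single_eq_same, Pi.single_eq_of_ne (ne_of_gt hij), Pi.single_eq_of_ne (Ne.symm hne)]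
      at h2
    rw [Pi.single_eq_same, Pi.single_eq_of_ne (ne_of_gt hkl), Pi.single_eq_of_ne hne] at h3
    by_cases h4 : l = i
    · rw [h4, Pi.single_eq_same] at h2; norm_num at h2
    · rw [Pi.single_eq_of_ne h4] at h2; norm_num at h2
  · have h2 := h1 (Pi.single j 1)
    rw [Pi.single_eq_same, Pi.single_eq_of_ne (ne_of_lt hij), Pi.single_eq_of_ne (Ne.symm hne)]
      at h2
    by_cases h4 : k = j
    · rw [h4, Pi.single_eq_same] at h2; norm_num at h2
    · rw [Pi.single_eq_of_ne h4] at h2; norm_num at h2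

end Pool.Agent.ANM51
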